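import Mathlib

/-!
Definitions for FC[REG]-CQ and FC[REG]-UCQ languages.
`A` is the terminal alphabet, `X` the set of variables, words are lists.
-/

namespace Pool.Agent.Lib.MP_c07d1e_lc

variable {A X : Type}

/-- The image of the pattern `α` under the substitution that fixes the terminals and sends each
variable `x` to the word `σ x`. -/
def subst (σ : X → List A) (α : List (A ⊕ X)) : List A :=
  α.flatMap (Sum.elim (fun a => [a]) σ)

/-- An FC[REG]-CQ: a finite list of atoms `x ≐ α` and a finite list of regular constraints. -/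
structure CQ (A X : Type) : Type where
  atoms : List (X × List (A ⊕ X))
  cons : List (X × RegularExpression A)

/-- The language of an FC[REG]-CQ with universe variable `w`. -/
def CQ.lang (w : X) (φ : CQ A X) : Set (List A) :=
  {u | ∃ σ : X → List A, (∀ x, σ x <:+: σ w) ∧ (∀ e ∈ φ.atoms, σ e.1 = subst σ e.2) ∧
    (∀ c ∈ φ.cons, σ c.1 ∈ c.2.matches') ∧ σ w = u}

/-- The class of FC[REG]-CQ languages. -/
def cqClass (A : Type) (w : X) : Set (Set (List A)) := {L | ∃ φ : CQ A X, L = φ.lang w}

/-- The class of FC[REG]-UCQ languages. -/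
def ucqClass (A : Type) (w : X) : Set (Set (List A)) :=
  {L | ∃ Φ : List (CQ A X), L = {u | ∃ φ ∈ Φ, u ∈ φ.lang w}}

end Pool.Agent.Lib.MP_c07d1e_lc
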