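import Pool.Agent.Lib.MP_c07d1e_lc.Defs

namespace Pool.Agent.Lib.MP_c07d1e_lc

variable {A V W X Y : Type}

@[simp] lemma subst_nil (σ : V → List A) : subst σ [] = [] := rfl

@[simp] lemma subst_inl (σ : V → List A) (a : A) (U : List (A ⊕ V)) :
    subst σ (Sum.inl a :: U) = a :: subst σ U := by simp [subst]

@[simp] lemma subst_inr (σ : V → List A) (x : V) (U : List (A ⊕ V)) :
    subst σ (Sum.inr x :: U) = σ x ++ subst σ U := by simp [subst]

lemma subst_congr {σ τ : V → List A} {U : List (A ⊕ V)}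
    (h : ∀ x, Sum.inr x ∈ U → σ x = τ x) : subst σ U = subst τ U := by
  induction U with
  | nil => rfl
  | cons t U ih =>
    have ih' := ih (fun x hx => h x (List.mem_cons_of_mem _ hx))
    cases t with
    | inl a => simp [ih']
    | inr x => simp [ih', h x List.mem_cons_self]

lemma subst_rename (ρ : W → List A) (r : V → W) (U : List (A ⊕ V)) :
    subst ρ (U.map (Sum.map id r)) = subst (fun x => ρ (r x)) U := by
  induction U with
  | nil => rfl
  | cons t U ih => cases t <;> simp [ih]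

lemma subst_vars (ρ : V → List A) (l : List V) :
    subst ρ (l.map Sum.inr) = (l.map ρ).flatten := by
  induction l with
  | nil => rfl
  | cons t U ih => simp [ih]

def CQ.Holds (φ : CQ A V) (σ : V → List A) : Prop :=
  (∀ e ∈ φ.atoms, σ e.1 = subst σ e.2) ∧ ∀ c ∈ φ.cons, σ c.1 ∈ c.2.matches'

def CQ.ren (r : V → W) (φ : CQ A V) : CQ A W :=
  ⟨φ.atoms.map (fun e => (r e.1, e.2.map (Sum.map id r))), φ.cons.map (fun c => (r c.1, c.2))⟩

lemma CQ.holds_ren (r : V → W) (φ : CQ A V) (ρ : W → List A) :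
    (φ.ren r).Holds ρ ↔ φ.Holds (fun x => ρ (r x)) := by
  simp only [CQ.Holds, CQ.ren, List.forall_mem_map, subst_rename]

def CQ.app (φ ψ : CQ A V) : CQ A V := ⟨φ.atoms ++ ψ.atoms, φ.cons ++ ψ.cons⟩

lemma CQ.holds_app (φ ψ : CQ A V) (σ : V → List A) :
    (φ.app ψ).Holds σ ↔ φ.Holds σ ∧ ψ.Holds σ := by
  simp only [CQ.Holds, CQ.app, List.mem_append, or_imp, forall_and]
  tauto

lemma CQ.mem_lang {w : V} {φ : CQ A V} {u : List A} :
    u ∈ φ.lang w ↔ ∃ σ : V → List A, (∀ x, σ x <:+: σ w) ∧ φ.Holds σ ∧ σ w = u := by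
  simp only [CQ.lang, CQ.Holds, Set.mem_ofPred_eq, and_assoc]

lemma CQ.finitize (w : V) (φ : CQ A V) :
    ∃ (V' : Type) (_ : Finite V') (w' : V') (φ' : CQ A V'), φ.lang w = φ'.lang w' := by
  classical
  let S : Finset V := (w :: (φ.atoms.flatMap (fun e => e.1 :: e.2.filterMap Sum.getRight?) ++
    φ.cons.map Prod.fst)).toFinset
  let r : V → Option S := fun x => if h : x ∈ S then some ⟨x, h⟩ else none
  refine ⟨Option S, inferInstance, r w, φ.ren r, ?_⟩
  ext u
  simp only [CQ.mem_lang, CQ.holds_ren]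
  constructor
  · rintro ⟨σ, h1, h2, rfl⟩
    let ρ : Option S → List A := fun o => o.elim [] (fun x => σ x.1)
    have hρ : ∀ x ∈ S, ρ (r x) = σ x := fun x hx => by simp [ρ, r, hx]
    have hw : ρ (r w) = σ w := hρ w (by simp [S])
    refine ⟨ρ, fun x => ?_, ⟨fun e he => ?_, fun c hc => ?_⟩, hw⟩
    · rw [hw]
      cases x with
      | none => exact List.nil_infix
      | some x => exact h1 x.1
    · have hm : ∀ x, x = e.1 ∨ Sum.inr x ∈ e.2 → x ∈ S := by
        intro x hx
        simp only [S, List.mem_toFinset, List.mem_cons, List.mem_flatMap, List.mem_filterMap,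
          List.mem_append, Sum.getRight?_eq_some_iff, exists_eq_right]
        exact Or.inr (Or.inl ⟨e, he, hx⟩)
      simp only
      rw [subst_congr (τ := σ) (fun x hx => hρ x (hm x (Or.inr hx))), hρ _ (hm _ (Or.inl rfl))]
      exact h2.1 e he
    · have hm : c.1 ∈ S := by
        simp only [S, List.mem_toFinset, List.mem_cons, List.mem_append, List.mem_map]
        exact Or.inr (Or.inr ⟨c, hc, rfl⟩)
      simp only
      rw [hρ _ hm]
      exact h2.2 c hc
  · rintro ⟨ρ, h1, h2, rfl⟩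
    exact ⟨fun x => ρ (r x), fun x => h1 _, h2, rfl⟩

lemma CQ.lang_mem [Infinite X] (w : X) (v : V) (φ : CQ A V) : φ.lang v ∈ cqClass A w := by
  classical
  obtain ⟨V', _, v', φ', h⟩ := φ.finitize v
  rw [h]
  obtain ⟨y₀⟩ : Nonempty (V' ↪ X) := by
    obtain ⟨m, ⟨e⟩⟩ := Finite.exists_equiv_fin V'
    exact ⟨e.toEmbedding.trans (Fin.valEmbedding.trans (Infinite.natEmbedding _))⟩
  let y : V' → X := fun i => Equiv.swap (y₀ v') w (y₀ i)
  have hy : Function.Injective y := (Equiv.swap _ _).injective.comp y₀.injective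
  have hyw : y v' = w := by simp [y]
  refine ⟨φ'.ren y, ?_⟩
  ext u
  simp only [CQ.mem_lang, CQ.holds_ren]
  constructor
  · rintro ⟨σ, h1, h2, rfl⟩
    let ρ : X → List A := Function.extend y σ (fun _ => [])
    have hρ : ∀ i, ρ (y i) = σ i := fun i => hy.extend_apply _ _ _
    have hw : ρ w = σ v' := hyw ▸ hρ v'
    refine ⟨ρ, fun x => ?_, by simpa only [hρ] using h2, hw⟩
    rw [hw]
    by_cases hx : ∃ i, y i = x
    · obtain ⟨i, rfl⟩ := hx
      rw [hρ]; exact h1 i
    · simp [ρ, Function.extend_apply' _ _ _ hx]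
  · rintro ⟨ρ, h1, h2, rfl⟩
    exact ⟨fun x => ρ (y x), fun x => by simpa only [hyw] using h1 _, h2, by simp only [hyw]⟩

/-- Relations definable by a conjunctive query with safe auxiliary variables. -/
def Dfn (w : Y) (R : (Y → List A) → Prop) : Prop :=
  ∃ (Z : Type) (φ : CQ A (Y ⊕ Z)), ∀ σ : Y → List A, (∀ y, σ y <:+: σ w) →
    (R σ ↔ ∃ τ : Z → List A, (∀ z, τ z <:+: σ w) ∧ φ.Holds (Sum.elim σ τ))

lemma Dfn.congr {w : Y} {R R' : (Y → List A) → Prop} (h : Dfn w R)
    (h' : ∀ σ : Y → List A, (∀ y, σ y <:+: σ w) → (R' σ ↔ R σ)) : Dfn w R' := by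
  obtain ⟨Z, φ, h⟩ := h
  exact ⟨Z, φ, fun σ hσ => (h' σ hσ).trans (h σ hσ)⟩

lemma Dfn.holds (w : Y) (φ : CQ A Y) : Dfn w φ.Holds := by
  refine ⟨Empty, φ.ren Sum.inl, fun σ _ => ?_⟩
  simp only [CQ.holds_ren, Sum.elim_inl]
  exact ⟨fun h => ⟨Empty.elim, fun z => z.elim, h⟩, fun ⟨_, _, h⟩ => h⟩

lemma Dfn.atom (w x : Y) (α : List (A ⊕ Y)) : Dfn w (fun σ => σ x = subst σ α) :=
  (Dfn.holds w ⟨[(x, α)], []⟩).congr (fun σ _ => by simp [CQ.Holds])

lemma Dfn.cat (w x y z : Y) : Dfn w (fun σ : Y → List A => σ x = σ y ++ σ z) :=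
  (Dfn.atom w x [Sum.inr y, Sum.inr z]).congr (fun σ _ => by simp)

lemma Dfn.eq (w x y : Y) : Dfn w (fun σ : Y → List A => σ x = σ y) :=
  (Dfn.atom w x [Sum.inr y]).congr (fun σ _ => by simp)

lemma Dfn.flat (w x : Y) (l : List Y) :
    Dfn w (fun σ : Y → List A => σ x = (l.map σ).flatten) :=
  (Dfn.atom w x (l.map Sum.inr)).congr (fun σ _ => by rw [subst_vars])

lemma Dfn.triv (w : Y) : Dfn w (fun _ : Y → List A => True) :=
  (Dfn.holds w ⟨[], []⟩).congr (fun σ _ => by simp [CQ.Holds])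

/-- Languages of regular expressions. -/
def Reg (S : Set (List A)) : Prop := ∃ γ : RegularExpression A, ∀ y, y ∈ γ.matches' ↔ y ∈ S

lemma Dfn.reg (w x : Y) {S : Set (List A)} (h : Reg S) : Dfn w (fun σ => σ x ∈ S) := by
  obtain ⟨γ, h⟩ := h
  exact (Dfn.holds w ⟨[], [(x, γ)]⟩).congr (fun σ _ => by simp [CQ.Holds, h])

lemma Dfn.and {w : Y} {R R' : (Y → List A) → Prop} (h : Dfn w R) (h' : Dfn w R') :
    Dfn w (fun σ => R σ ∧ R' σ) := by
  obtain ⟨Z, φ, h⟩ := h
  obtain ⟨Z', φ', h'⟩ := h'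
  refine ⟨Z ⊕ Z', (φ.ren (Sum.map id Sum.inl)).app (φ'.ren (Sum.map id Sum.inr)), fun σ hσ => ?_⟩
  have e1 : ∀ τ : Z ⊕ Z' → List A, (fun x => Sum.elim σ τ (Sum.map id Sum.inl x)) =
      Sum.elim σ (fun x => τ (Sum.inl x)) := by intro τ; funext x; cases x <;> rfl
  have e2 : ∀ τ : Z ⊕ Z' → List A, (fun x => Sum.elim σ τ (Sum.map id Sum.inr x)) =
      Sum.elim σ (fun x => τ (Sum.inr x)) := by intro τ; funext x; cases x <;> rfl
  simp only [CQ.holds_app, CQ.holds_ren, e1, e2, h σ hσ, h' σ hσ]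
  constructor
  · rintro ⟨⟨τ, h1, h2⟩, τ', h3, h4⟩
    exact ⟨Sum.elim τ τ', fun z => by cases z <;> simp [h1, h3], h2, h4⟩
  · rintro ⟨τ, h1, h2, h3⟩
    exact ⟨⟨_, fun z => h1 _, h2⟩, _, fun z => h1 _, h3⟩

lemma Dfn.all_list {ι : Type} {w : Y} {R : ι → (Y → List A) → Prop} (l : List ι)
    (h : ∀ i ∈ l, Dfn w (R i)) : Dfn w (fun σ => ∀ i ∈ l, R i σ) := by
  induction l with
  | nil => exact (Dfn.triv w).congr (fun σ _ => by simp)
  | cons i l ih =>
    exact ((h i List.mem_cons_self).and (ih (fun j hj => h j (List.mem_cons_of_mem _ hj)))).congr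
      (fun σ _ => by simp)

lemma Dfn.all {ι : Type} [Finite ι] {w : Y} {R : ι → (Y → List A) → Prop}
    (h : ∀ i, Dfn w (R i)) : Dfn w (fun σ => ∀ i, R i σ) := by
  let _ := Fintype.ofFinite ι
  exact (Dfn.all_list (Finset.univ : Finset ι).toList (fun i _ => h i)).congr
    (fun σ _ => by simp)

lemma Dfn.imp {w : Y} {R : (Y → List A) → Prop} (p : Prop) (h : Dfn w R) :
    Dfn w (fun σ => p → R σ) := by
  by_cases hp : p
  · exact h.congr (fun σ _ => by simp [hp])
  · exact (Dfn.triv w).congr (fun σ _ => by simp [hp])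

lemma Dfn.ex {w : Y} (Z : Type) {R : (Y ⊕ Z → List A) → Prop} (h : Dfn (Sum.inl w) R) :
    Dfn w (fun σ => ∃ τ : Z → List A, (∀ z, τ z <:+: σ w) ∧ R (Sum.elim σ τ)) := by
  obtain ⟨Z', φ, h⟩ := h
  refine ⟨Z ⊕ Z', φ.ren (Equiv.sumAssoc Y Z Z'), fun σ hσ => ?_⟩
  have e : ∀ τ : Z ⊕ Z' → List A, (fun x => Sum.elim σ τ (Equiv.sumAssoc Y Z Z' x)) =
      Sum.elim (Sum.elim σ (fun z => τ (Sum.inl z))) (fun z => τ (Sum.inr z)) := by
    intro τ; funext x; rcases x with (x | x) | x <;> rfl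
  simp only [CQ.holds_ren, e]
  constructor
  · rintro ⟨τ, h1, h2⟩
    obtain ⟨τ', h3, h4⟩ := (h (Sum.elim σ τ) (fun y => by cases y <;> simp [h1, hσ])).1 h2
    exact ⟨Sum.elim τ τ', fun z => by cases z <;> simp [h1]; exact h3 _, h4⟩
  · rintro ⟨τ, h1, h2⟩
    refine ⟨fun z => τ (Sum.inl z), fun z => h1 _, ?_⟩
    exact (h (Sum.elim σ _) (fun y => by cases y <;> simp [h1, hσ])).2 ⟨_, fun z => h1 _, h2⟩

lemma Dfn.lang_mem [Infinite X] (w : X) {L : Set (List A)}
    (h : Dfn () (fun σ : Unit → List A => σ () ∈ L)) : L ∈ cqClass A w := by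
  obtain ⟨Z, φ, h⟩ := h
  convert CQ.lang_mem w (Sum.inl ()) φ using 1
  ext u
  rw [CQ.mem_lang]
  refine (h (fun _ => u) (fun _ => List.infix_rfl)).trans ?_
  constructor
  · rintro ⟨τ, h1, h2⟩
    exact ⟨Sum.elim (fun _ => u) τ, fun x => by cases x <;> simp [h1], h2, rfl⟩
  · rintro ⟨ρ, h1, h2, rfl⟩
    refine ⟨fun z => ρ (Sum.inr z), fun z => h1 _, ?_⟩
    convert h2 using 1
    funext x; cases x <;> rfl

section reg

lemma Reg.congr {S S' : Set (List A)} (h : Reg S) (h' : ∀ y, y ∈ S' ↔ y ∈ S) : Reg S' := by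
  obtain ⟨γ, h⟩ := h
  exact ⟨γ, fun y => (h y).trans (h' y).symm⟩

lemma Reg.empty : Reg (∅ : Set (List A)) := ⟨0, fun y => by simp⟩

lemma Reg.eps : Reg ({[]} : Set (List A)) := ⟨1, fun y => by simp⟩

lemma Reg.char (a : A) : Reg ({[a]} : Set (List A)) := ⟨.char a, fun _ => Iff.rfl⟩

lemma Reg.union {S S' : Set (List A)} (h : Reg S) (h' : Reg S') : Reg (S ∪ S') := by
  obtain ⟨γ, h⟩ := h
  obtain ⟨γ', h'⟩ := h'
  exact ⟨γ + γ', fun y => by simp [Language.mem_add, h, h']⟩

lemma Reg.mul {S S' : Set (List A)} (h : Reg S) (h' : Reg S') :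
    Reg {y | ∃ a ∈ S, ∃ b ∈ S', a ++ b = y} := by
  obtain ⟨γ, h⟩ := h
  obtain ⟨γ', h'⟩ := h'
  exact ⟨γ * γ', fun y => by simp [Language.mem_mul, h, h']⟩

lemma Reg.star {S : Set (List A)} (h : Reg S) :
    Reg {y | ∃ L : List (List A), y = L.flatten ∧ ∀ z ∈ L, z ∈ S} := by
  obtain ⟨γ, h⟩ := h
  exact ⟨γ.star, fun y => by simp [Language.mem_kstar, h]⟩

lemma Reg.biUnion {ι : Type} {s : Set ι} (hs : s.Finite) {S : ι → Set (List A)}
    (h : ∀ i ∈ s, Reg (S i)) : Reg (⋃ i ∈ s, S i) := by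
  induction s, hs using Set.Finite.induction_on with
  | empty => simpa using Reg.empty
  | insert _ _ ih =>
    rw [Set.biUnion_insert]
    exact (h _ (Set.mem_insert _ _)).union (ih (fun i hi => h i (Set.mem_insert_of_mem _ hi)))

lemma Reg.letters [Finite A] (p : A → Prop) : Reg {y | ∃ b, p b ∧ y = [b]} :=
  (Reg.biUnion (Set.toFinite {b | p b}) (fun b _ => Reg.char b)).congr (fun y => by simp)

lemma Reg.over [Finite A] (p : A → Prop) : Reg {y : List A | ∀ b ∈ y, p b} := by
  refine (Reg.letters p).star.congr (fun y => ⟨fun h => ⟨y.map (fun b => [b]), ?_, ?_⟩, ?_⟩)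
  · clear h
    induction y with
    | nil => rfl
    | cons a y ih => simpa using ih
  · intro z hz
    obtain ⟨b, hb, rfl⟩ := List.mem_map.1 hz
    exact ⟨b, h b hb, rfl⟩
  · rintro ⟨L, rfl, h⟩ b hb
    obtain ⟨z, hz, hb⟩ := List.mem_flatten.1 hb
    obtain ⟨c, hc, rfl⟩ := h z hz
    rwa [List.mem_singleton.1 hb]

lemma Reg.univ [Finite A] : Reg (Set.univ : Set (List A)) :=
  (Reg.over (fun _ => True)).congr (fun y => by simp)

lemma Reg.head [Finite A] (p : A → Prop) : Reg {y : List A | ∀ b ∈ y.head?, p b} := by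
  refine (Reg.eps.union ((Reg.letters p).mul Reg.univ)).congr (fun y => ?_)
  cases y with
  | nil => simp
  | cons a y =>
    simp only [Set.mem_ofPred_eq, List.head?_cons, Option.mem_def, Option.some.injEq,
      forall_eq', Set.mem_union, Set.mem_singleton_iff, reduceCtorEq, Set.mem_univ, true_and,
      false_or]
    constructor
    · intro h; exact ⟨_, ⟨a, h, rfl⟩, y, rfl⟩
    · rintro ⟨_, ⟨b, h, rfl⟩, z, h2⟩
      simp only [List.cons_append, List.nil_append, List.cons.injEq] at h2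
      exact h2.1 ▸ h

lemma Reg.last [Finite A] (c : A) : Reg {y : List A | y = [] ∨ ∃ z, y = z ++ [c]} :=
  (Reg.eps.union (Reg.univ.mul (Reg.char c))).congr (fun y => by
    simp only [Set.mem_ofPred_eq, Set.mem_union, Set.mem_singleton_iff, Set.mem_univ, true_and,
      exists_eq_left]
    exact or_congr Iff.rfl (exists_congr (fun z => eq_comm)))

/-- Words with two different letters. -/
def NU (y : List A) : Prop := ∃ a ∈ y, ∃ b ∈ y, a ≠ b

lemma exists_before {a b : A} {y : List A} (ha : a ∈ y) (hb : b ∈ y) (hab : a ≠ b) :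
    (∃ m, a :: m ++ [b] <:+: y) ∨ ∃ m, b :: m ++ [a] <:+: y := by
  obtain ⟨s, t, rfl⟩ := List.append_of_mem ha
  rcases List.mem_append.1 hb with h | h
  · obtain ⟨s', m, rfl⟩ := List.append_of_mem h
    exact Or.inr ⟨m, s', t, by simp⟩
  · rcases List.mem_cons.1 h with h | h
    · exact absurd h.symm hab
    · obtain ⟨m, t', rfl⟩ := List.append_of_mem h
      exact Or.inl ⟨m, s, t', by simp⟩

lemma Reg.nu [Finite A] : Reg {y : List A | NU y} := by
  refine (Reg.biUnion (Set.toFinite {p : A × A | p.1 ≠ p.2}) (fun p _ =>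
    (Reg.univ.mul ((((Reg.char p.1).mul Reg.univ).mul (Reg.char p.2)).mul Reg.univ)))).congr
    (fun y => ?_)
  simp only [Set.mem_ofPred_eq, Set.mem_iUnion, Set.mem_univ, true_and, Set.mem_singleton_iff,
    exists_eq_left, exists_prop, Prod.exists]
  constructor
  · rintro ⟨a, ha, b, hb, hab⟩
    rcases exists_before ha hb hab with ⟨m, s, t, h⟩ | ⟨m, s, t, h⟩
    · exact ⟨a, b, hab, s, _, ⟨_, ⟨_, ⟨m, rfl⟩, rfl⟩, t, rfl⟩, by simpa using h⟩
    · exact ⟨b, a, hab.symm, s, _, ⟨_, ⟨_, ⟨m, rfl⟩, rfl⟩, t, rfl⟩, by simpa using h⟩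
  · rintro ⟨a, b, hab, s, _, ⟨_, ⟨_, ⟨m, rfl⟩, rfl⟩, t, rfl⟩, rfl⟩
    exact ⟨a, by simp, b, by simp, hab⟩

lemma Reg.unary [Finite A] : Reg {y : List A | ∃ a, ∀ b ∈ y, b = a} :=
  (Reg.biUnion Set.finite_univ (fun a _ => Reg.over (fun b => b = a))).congr (fun y => by simp)

lemma Reg.rep (a : A) (n : ℕ) : Reg {List.replicate n a} := by
  induction n with
  | zero => exact Reg.eps
  | succ n ih => exact ((Reg.char a).mul ih).congr (fun y => by simp [List.replicate_succ, eq_comm])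

lemma Reg.closure (a : A) (t : Finset ℕ) :
    Reg {y | ∃ n ∈ AddSubmonoid.closure (t : Set ℕ), y = List.replicate n a} := by
  refine (Reg.biUnion t.finite_toSet (fun n _ => Reg.rep a n)).star.congr (fun y => ⟨?_, ?_⟩)
  · rintro ⟨n, hn, rfl⟩
    induction hn using AddSubmonoid.closure_induction with
    | mem n hn =>
      refine ⟨[List.replicate n a], by simp, fun z hz => ?_⟩
      simp only [Set.mem_iUnion, Set.mem_singleton_iff, exists_prop]
      exact ⟨n, hn, List.mem_singleton.1 hz⟩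
    | zero => exact ⟨[], rfl, by simp⟩
    | add x y _ _ ihx ihy =>
      obtain ⟨L, h1, h2⟩ := ihx
      obtain ⟨L', h1', h2'⟩ := ihy
      refine ⟨L ++ L', by rw [List.replicate_add, h1, h1', List.flatten_append], ?_⟩
      intro z hz
      rcases List.mem_append.1 hz with hz | hz
      exacts [h2 z hz, h2' z hz]
  · rintro ⟨L, rfl, h⟩
    induction L with
    | nil => exact ⟨0, zero_mem _, rfl⟩
    | cons z L ih =>
      obtain ⟨n, h1, h2⟩ := ih (fun z hz => h z (List.mem_cons_of_mem _ hz))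
      have h3 := h z List.mem_cons_self
      simp only [Set.mem_iUnion, Set.mem_singleton_iff, exists_prop] at h3
      obtain ⟨m, h4, rfl⟩ := h3
      exact ⟨m + n, add_mem (AddSubmonoid.subset_closure h4) h1,
        by rw [List.flatten_cons, h2, List.replicate_add]⟩

lemma Reg.semilinear (a : A) {S : Set ℕ} (h : IsSemilinearSet S) :
    Reg {y | ∃ n ∈ S, y = List.replicate n a} := by
  obtain ⟨T, hT, h1, rfl⟩ := h
  refine (Reg.biUnion hT (S := fun s => {y | ∃ n ∈ s, y = List.replicate n a})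
    (fun s hs => ?_)).congr (fun y => ?_)
  · obtain ⟨b, t, rfl⟩ := isLinearSet_iff.1 (h1 s hs)
    refine ((Reg.rep a b).mul (Reg.closure a t)).congr (fun y => ?_)
    simp only [Set.mem_ofPred_eq, Set.mem_singleton_iff, exists_eq_left, Set.mem_vadd_set,
      vadd_eq_add, SetLike.mem_coe]
    constructor
    · rintro ⟨_, ⟨n, hn, rfl⟩, rfl⟩
      exact ⟨_, ⟨n, hn, rfl⟩, by rw [List.replicate_add]⟩
    · rintro ⟨_, ⟨n, hn, rfl⟩, rfl⟩
      exact ⟨_, ⟨n, hn, rfl⟩, by rw [List.replicate_add]⟩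
  · simp only [Set.mem_ofPred_eq, Set.mem_sUnion, Set.mem_iUnion, exists_prop]
    constructor
    · rintro ⟨n, ⟨s, h2, h3⟩, rfl⟩; exact ⟨s, h2, n, h3, rfl⟩
    · rintro ⟨s, h2, n, h3, rfl⟩; exact ⟨n, ⟨s, h2, h3⟩, rfl⟩

end reg

section unary

lemma replicate_eq_append {a : A} {n : ℕ} {y z : List A} (h : List.replicate n a = y ++ z) :
    y = List.replicate y.length a ∧ z = List.replicate z.length a ∧ n = y.length + z.length := by
  refine ⟨List.eq_replicate_of_mem (fun b hb => ?_), List.eq_replicate_of_mem (fun b hb => ?_),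
    by simpa using congrArg List.length h⟩
  · exact List.eq_of_mem_replicate (h ▸ List.mem_append_left _ hb)
  · exact List.eq_of_mem_replicate (h ▸ List.mem_append_right _ hb)

lemma semilinear_regex (a : A) (γ : RegularExpression A) :
    IsSemilinearSet {n | List.replicate n a ∈ γ.matches'} := by
  induction γ with
  | zero => simp
  | epsilon =>
    convert IsSemilinearSet.singleton (0 : ℕ)
    ext n; simp
  | char b =>
    refine IsSemilinearSet.of_finite ((Set.finite_singleton 1).subset (fun n hn => ?_))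
    have h : List.replicate n a = [b] := hn
    simpa using congrArg List.length h
  | plus P Q ih1 ih2 =>
    convert ih1.union ih2
    ext n; simp [Language.mem_add]
  | comp P Q ih1 ih2 =>
    convert ih1.add ih2
    ext n
    simp only [RegularExpression.comp_def, RegularExpression.matches'_mul, Language.mem_mul,
      Set.mem_ofPred_eq, Set.mem_add]
    constructor
    · rintro ⟨y, h1, z, h2, h3⟩
      obtain ⟨e1, e2, e3⟩ := replicate_eq_append h3.symm
      exact ⟨_, e1 ▸ h1, _, e2 ▸ h2, e3.symm⟩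
    · rintro ⟨i, h1, j, h2, rfl⟩
      exact ⟨_, h1, _, h2, by rw [List.replicate_add]⟩
  | star P ih =>
    convert ih.closure
    ext n
    simp only [RegularExpression.matches'_star, Language.mem_kstar, Set.mem_ofPred_eq,
      SetLike.mem_coe]
    constructor
    · rintro ⟨L, h1, h2⟩
      induction L generalizing n with
      | nil =>
        have : n = 0 := by simpa using h1
        exact this ▸ zero_mem _
      | cons z L ih' =>
        obtain ⟨e1, e2, e3⟩ := replicate_eq_append (List.flatten_cons ▸ h1)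
        rw [e3]
        refine add_mem (AddSubmonoid.subset_closure ?_)
          (ih' _ e2.symm (fun z hz => h2 z (List.mem_cons_of_mem _ hz)))
        have := h2 z List.mem_cons_self
        rwa [e1] at this
    · intro hn
      induction hn using AddSubmonoid.closure_induction with
      | mem n hn => exact ⟨[List.replicate n a], by simp, by simpa using hn⟩
      | zero => exact ⟨[], rfl, by simp⟩
      | add x y _ _ ihx ihy =>
        obtain ⟨L, h1, h2⟩ := ihx
        obtain ⟨L', h1', h2'⟩ := ihy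
        refine ⟨L ++ L', by rw [List.replicate_add, h1, h1', List.flatten_append], ?_⟩
        intro z hz
        rcases List.mem_append.1 hz with hz | hz
        exacts [h2 z hz, h2' z hz]

lemma subst_unary (a : A) (α : List (A ⊕ V)) (h : ∀ b, Sum.inl b ∈ α → b = a) :
    ∃ (c : ℕ) (f : (V → ℕ) →+ ℕ), ∀ k : V → ℕ,
      subst (fun x => List.replicate (k x) a) α = List.replicate (c + f k) a := by
  induction α with
  | nil => exact ⟨0, 0, fun k => by simp⟩
  | cons t α ih =>
    obtain ⟨c, f, hf⟩ := ih (fun b hb => h b (List.mem_cons_of_mem _ hb))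
    cases t with
    | inl b =>
      refine ⟨c + 1, f, fun k => ?_⟩
      rw [subst_inl, hf, h b List.mem_cons_self, add_right_comm, List.replicate_succ]
    | inr x =>
      refine ⟨c, Pi.evalAddMonoidHom (fun _ => ℕ) x + f, fun k => ?_⟩
      rw [subst_inr, hf, ← List.replicate_add]
      congr 1
      simp only [AddMonoidHom.add_apply, Pi.evalAddMonoidHom_apply]
      omega

lemma semilinear_lang (a : A) (w : V) (φ : CQ A V) :
    IsSemilinearSet {n | List.replicate n a ∈ φ.lang w} := by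
  classical
  obtain ⟨V, _, w, φ, h⟩ := φ.finitize w
  rw [h]
  let ev : V → ((V → ℕ) →+ ℕ) := fun x => Pi.evalAddMonoidHom (fun _ => ℕ) x
  have h1 : ∀ x, IsSemilinearSet {k : V → ℕ | k x ≤ k w} := by
    intro x
    have := (isSemilinearSet_setOfPred_eq (M := (V → ℕ) × ℕ) (0 : ℕ) 0
      ((ev x).comp (AddMonoidHom.fst _ _) + AddMonoidHom.snd _ _)
      ((ev w).comp (AddMonoidHom.fst _ _))).image (AddMonoidHom.fst (V → ℕ) ℕ)
    convert this
    ext k
    simp only [Set.mem_ofPred_eq, zero_add, AddMonoidHom.add_apply, AddMonoidHom.coe_comp,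
      Function.comp_apply, AddMonoidHom.coe_fst, AddMonoidHom.coe_snd, Set.mem_image,
      Prod.exists, exists_and_right, exists_eq_right, ev, Pi.evalAddMonoidHom_apply]
    exact ⟨fun h => ⟨k w - k x, by omega⟩, fun ⟨d, h⟩ => by omega⟩
  have h2 : ∀ e : V × List (A ⊕ V), IsSemilinearSet {k : V → ℕ | List.replicate (k e.1) a =
      subst (fun x => List.replicate (k x) a) e.2} := by
    intro e
    by_cases he : ∀ b, Sum.inl b ∈ e.2 → b = a
    · obtain ⟨c, f, hf⟩ := subst_unary a e.2 he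
      convert isSemilinearSet_setOfPred_eq (M := V → ℕ) (0 : ℕ) c (ev e.1) f using 2
      ext k
      simp [hf, ev]
    · convert IsSemilinearSet.empty
      ext k
      simp only [Set.mem_ofPred_eq, Set.mem_empty_iff_false, iff_false]
      intro hk
      refine he (fun b hb => List.eq_of_mem_replicate (n := k e.1) ?_)
      rw [hk]
      exact List.mem_flatMap.2 ⟨_, hb, by simp⟩
  have h3 : ∀ c : V × RegularExpression A,
      IsSemilinearSet {k : V → ℕ | List.replicate (k c.1) a ∈ c.2.matches'} :=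
    fun c => (semilinear_regex a c.2).preimage (ev c.1)
  have h4 := (((IsSemilinearSet.iInter h1).inter (IsSemilinearSet.biInter
    (List.finite_toSet φ.atoms) (fun e _ => h2 e))).inter (IsSemilinearSet.biInter
    (List.finite_toSet φ.cons) (fun c _ => h3 c))).image (ev w)
  convert h4
  ext n
  simp only [CQ.lang, Set.mem_ofPred_eq, Set.mem_image, Set.mem_inter_iff, Set.mem_iInter, ev,
    Pi.evalAddMonoidHom_apply]
  constructor
  · rintro ⟨σ, a1, a2, a3, a4⟩
    have e : ∀ x, List.replicate (σ x).length a = σ x := fun x =>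
      (List.eq_replicate_of_mem (fun b hb =>
        List.eq_of_mem_replicate (a4 ▸ (a1 x).subset hb))).symm
    refine ⟨fun x => (σ x).length, ⟨⟨fun x => (a1 x).length_le, ?_⟩, ?_⟩, by simp [a4]⟩
    · simpa only [e] using a2
    · simpa only [e] using a3
  · rintro ⟨k, ⟨⟨a1, a2⟩, a3⟩, rfl⟩
    refine ⟨fun x => List.replicate (k x) a, fun x => ?_, a2, a3, rfl⟩
    obtain ⟨d, hd⟩ := Nat.exists_eq_add_of_le (a1 x)
    simp only [hd, List.replicate_add]
    exact (List.prefix_append _ _).isInfix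

end unary

end Pool.Agent.Lib.MP_c07d1e_lc
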