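import Pool.Agent.Lib.MP_c07d1e_lc.Frame

namespace Pool.Agent.Lib.MP_c07d1e_lc

variable {A V W X Y : Type}

open Classical in
/-- The longest initial run of the letter `a`. -/
noncomputable def tw (a : A) (x : List A) : List A := x.takeWhile (fun b => decide (b = a))

@[simp] lemma tw_nil (a : A) : tw a [] = [] := rfl

lemma tw_cons_self (a : A) (x : List A) : tw a (a :: x) = a :: tw a x := by simp [tw]

lemma tw_cons_ne {a b : A} (h : b ≠ a) (x : List A) : tw a (b :: x) = [] := by simp [tw, h]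

lemma tw_spec (a : A) (x : List A) :
    ∃ v, x = tw a x ++ v ∧ (∀ b ∈ tw a x, b = a) ∧ ∀ b ∈ v.head?, b ≠ a := by
  induction x with
  | nil => exact ⟨[], by simp⟩
  | cons b x ih =>
    by_cases h : b = a
    · obtain ⟨v, h1, h2, h3⟩ := ih
      subst h
      refine ⟨v, by rw [tw_cons_self, List.cons_append, ← h1], ?_, h3⟩
      rw [tw_cons_self]
      simpa using h2
    · exact ⟨b :: x, by simp [tw_cons_ne h], by simp [tw_cons_ne h], by simpa using h⟩

lemma tw_append_of_all {a : A} {c : List A} (h : ∀ b ∈ c, b = a) (v : List A) :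
    tw a (c ++ v) = c ++ tw a v := by
  induction c with
  | nil => rfl
  | cons b c ih =>
    obtain rfl : b = a := h b List.mem_cons_self
    rw [List.cons_append, tw_cons_self, ih (fun d hd => h d (List.mem_cons_of_mem _ hd))]
    rfl

lemma tw_append_of_not {a : A} {c : List A} (h : ¬ ∀ b ∈ c, b = a) (v : List A) :
    tw a (c ++ v) = tw a c := by
  induction c with
  | nil => simp at h
  | cons b c ih =>
    by_cases hb : b = a
    · subst hb
      rw [List.cons_append, tw_cons_self, tw_cons_self, ih (by simpa using h)]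
    · rw [List.cons_append, tw_cons_ne hb, tw_cons_ne hb]

lemma tw_iff (a : A) (x c : List A) :
    c = tw a x ↔ ∃ v, x = c ++ v ∧ (∀ b ∈ c, b = a) ∧ ∀ b ∈ v.head?, b ≠ a := by
  constructor
  · rintro rfl; exact tw_spec a x
  · rintro ⟨v, rfl, h1, h2⟩
    rw [tw_append_of_all h1]
    cases v with
    | nil => simp
    | cons b v => rw [tw_cons_ne (h2 b rfl), List.append_nil]

lemma tw_prefix (a : A) (x : List A) : tw a x <+: x := by
  obtain ⟨v, h, -⟩ := tw_spec a x
  exact ⟨v, h.symm⟩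

lemma Dfn.tw [Finite A] (w x c : Y) (a : A) :
    Dfn w (fun σ : Y → List A => σ c = tw a (σ x)) := by
  refine (Dfn.ex Unit ((Dfn.cat (Sum.inl w) (Sum.inl x) (Sum.inl c) (Sum.inr ())).and
    ((Dfn.reg _ (Sum.inl c) (Reg.over (fun b => b = a))).and
      (Dfn.reg _ (Sum.inr ()) (Reg.head (fun b => b ≠ a)))))).congr (fun σ hσ => ?_)
  rw [tw_iff]
  constructor
  · rintro ⟨v, h1, h2, h3⟩
    exact ⟨fun _ => v, fun _ => (List.IsSuffix.isInfix ⟨_, h1.symm⟩).trans (hσ x), h1, h2, h3⟩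
  · rintro ⟨τ, -, h1, h2, h3⟩
    exact ⟨τ (), h1, h2, h3⟩

/-- The first run of a word. -/
noncomputable def fr : List A → List A
  | [] => []
  | a :: x => tw a (a :: x)

lemma flatten_single {ι : Type} {l : List ι} (hl : l.Nodup) {i₀ : ι} (hi : i₀ ∈ l)
    {s : ι → List A} (h : ∀ i, i ≠ i₀ → s i = []) : (l.map s).flatten = s i₀ := by
  induction l with
  | nil => simp at hi
  | cons j l ih =>
    rw [List.nodup_cons] at hl
    by_cases hj : j = i₀
    · subst hj
      have : (l.map s).flatten = [] := by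
        simp only [List.flatten_eq_nil_iff, List.forall_mem_map]
        exact fun i hi' => h i (by rintro rfl; exact hl.1 hi')
      simp [this]
    · have hi' : i₀ ∈ l := (List.mem_cons.1 hi).resolve_left (Ne.symm hj)
      simp [h j hj, ih hl.2 hi']

/-- An enumeration of a finite type. -/
noncomputable def enum (ι : Type) [Finite ι] : List ι :=
  (@Finset.univ ι (Fintype.ofFinite ι)).toList

lemma enum_nodup (ι : Type) [Finite ι] : (enum ι).Nodup := Finset.nodup_toList _

lemma mem_enum {ι : Type} [Finite ι] (i : ι) : i ∈ enum ι := by simp [enum]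

lemma fr_eq [Finite A] (x : List A) : fr x = ((enum A).map (fun a => tw a x)).flatten := by
  cases x with
  | nil => simp [fr]
  | cons a x =>
    exact (flatten_single (enum_nodup A) (mem_enum a) (s := fun b => tw b (a :: x))
      (fun b hb => tw_cons_ne (Ne.symm hb) x)).symm

lemma fr_prefix (x : List A) : fr x <+: x := by
  cases x with
  | nil => exact List.prefix_rfl
  | cons a x => exact tw_prefix _ _

lemma fr_not_nu (x : List A) : ¬ NU (fr x) := by
  cases x with
  | nil => simp [fr, NU]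
  | cons a x =>
    obtain ⟨v, -, h, -⟩ := tw_spec a (a :: x)
    rintro ⟨b, hb, c, hc, hbc⟩
    exact hbc ((h b hb).trans (h c hc).symm)

lemma fr_ne_nil {x : List A} (h : x ≠ []) : fr x ≠ [] := by
  cases x with
  | nil => exact absurd rfl h
  | cons a x => simp [fr, tw_cons_self]

lemma Dfn.fr [Finite A] (w x e : Y) : Dfn w (fun σ : Y → List A => σ e = fr (σ x)) := by
  refine (Dfn.ex A ((Dfn.all (fun a => Dfn.tw (Sum.inl w) (Sum.inl x) (Sum.inr a) a)).and
    (Dfn.flat _ (Sum.inl e) ((enum A).map Sum.inr)))).congr (fun σ hσ => ?_)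
  rw [fr_eq]
  simp only [Sum.elim_inl, Sum.elim_inr, List.map_map, Function.comp_def]
  constructor
  · intro h
    exact ⟨fun a => MP_c07d1e_lc.tw a (σ x), fun a => (tw_prefix _ _).isInfix.trans (hσ x),
      fun _ => rfl, h⟩
  · rintro ⟨τ, -, h1, h2⟩
    rw [h2, funext h1]

/-- `t` is a token that is nonempty when `x` has two different letters. -/
def Tok (u x t : List A) : Prop :=
  ∃ τ : Fin 5 → List A, (∀ z, τ z <:+: u) ∧ τ 0 = fr x ∧ x = τ 0 ++ τ 2 ∧ τ 3 = fr (τ 2) ∧
    τ 0 = τ 1 ++ t ∧ τ 4 = t ++ τ 3 ∧ τ 4 ∈ ({[]} : Set (List A)) ∪ {y | NU y}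

lemma Dfn.tok [Finite A] (w x t : Y) : Dfn w (fun σ : Y → List A => Tok (σ w) (σ x) (σ t)) :=
  Dfn.ex (Fin 5) ((Dfn.fr (Sum.inl w) (Sum.inl x) (Sum.inr 0)).and
    ((Dfn.cat _ (Sum.inl x) (Sum.inr 0) (Sum.inr 2)).and
    ((Dfn.fr _ (Sum.inr 2) (Sum.inr 3)).and
    ((Dfn.cat _ (Sum.inr 0) (Sum.inr 1) (Sum.inl t)).and
    ((Dfn.cat _ (Sum.inr 4) (Sum.inl t) (Sum.inr 3)).and
    (Dfn.reg _ (Sum.inr 4) (Reg.eps.union Reg.nu)))))))

lemma Tok.sound {u x t : List A} (h : Tok u x t) (hx : NU x) : t ≠ [] := by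
  obtain ⟨τ, -, h0, h1, h2, -, h4, h5⟩ := h
  rintro rfl
  rw [List.nil_append, h2] at h4
  rw [h4] at h5
  rcases h5 with h5 | h5
  · have : τ 2 = [] := by_contra (fun h => fr_ne_nil h h5)
    rw [this, List.append_nil, h0] at h1
    exact fr_not_nu x (h1 ▸ hx)
  · exact fr_not_nu _ h5

lemma Tok.nil (u : List A) : Tok u [] [] :=
  ⟨fun _ => [], fun _ => List.nil_infix, rfl, rfl, rfl, rfl, rfl, Or.inl rfl⟩

lemma Tok.complete {u : List A} (hu : NU u) : ∃ a ∈ u, Tok u u [a] := by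
  rcases u with _ | ⟨a, u'⟩
  · simp [NU] at hu
  obtain ⟨v, h1, h2, h3⟩ := tw_spec a (a :: u')
  have hne : tw a (a :: u') ≠ [] := by simp [tw_cons_self]
  have h4 : tw a (a :: u') = (tw a (a :: u')).dropLast ++ [a] := by
    conv_lhs => rw [← List.dropLast_append_getLast hne, h2 _ (List.getLast_mem hne)]
  rcases v with _ | ⟨b, v⟩
  · rw [List.append_nil] at h1
    refine absurd ?_ (fr_not_nu (a :: u'))
    show NU (tw a (a :: u'))
    rw [← h1]; exact hu
  have hb : b ≠ a := h3 b rfl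
  obtain ⟨r, hr⟩ := fr_prefix (b :: v)
  set e := tw a (a :: u') with he
  have h5 : [a] ++ fr (b :: v) <:+: a :: u' :=
    ⟨e.dropLast, r, by
      rw [h1, List.append_assoc, List.append_assoc, hr, ← List.append_assoc, ← h4]⟩
  refine ⟨a, List.mem_cons_self, ![e, e.dropLast, b :: v, fr (b :: v), [a] ++ fr (b :: v)], ?_,
    rfl, h1, rfl, h4, rfl, Or.inr ⟨a, by simp, b, ?_, hb.symm⟩⟩
  · intro z
    fin_cases z
    · exact (tw_prefix _ _).isInfix
    · exact ((List.dropLast_prefix e).trans (tw_prefix _ _)).isInfix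
    · exact List.IsSuffix.isInfix ⟨e, h1.symm⟩
    · exact (List.suffix_append [a] _).isInfix.trans h5
    · exact h5
  · simp [fr, tw_cons_self]

/-- If `s` is nonempty then so is `y`; realised by an occurrence of `c` after `s`. -/
def After (c : A) (u s y : List A) : Prop :=
  ∃ τ : Fin 5 → List A, (∀ z, τ z <:+: u) ∧ τ 1 = s ++ τ 0 ∧ τ 1 ∈ {y : List A | ∀ b ∈ y, b ≠ c} ∧
    τ 2 = τ 1 ++ τ 3 ∧ τ 2 ∈ {y : List A | y = [] ∨ ∃ z, y = z ++ [c]} ∧ y = τ 3 ++ τ 4

/-- If `s` is nonempty then so is `y`; realised by an occurrence of `c` before `s`. -/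
def Before (c : A) (u s y : List A) : Prop :=
  ∃ τ : Fin 5 → List A, (∀ z, τ z <:+: u) ∧ τ 1 = τ 0 ++ s ∧ τ 1 ∈ {y : List A | ∀ b ∈ y, b ≠ c} ∧
    τ 2 = τ 3 ++ τ 1 ∧ τ 2 ∈ {y : List A | ∀ b ∈ y.head?, b = c} ∧ y = τ 3 ++ τ 4

lemma Dfn.after [Finite A] (c : A) (w s y : Y) :
    Dfn w (fun σ : Y → List A => After c (σ w) (σ s) (σ y)) :=
  Dfn.ex (Fin 5) ((Dfn.cat (Sum.inl w) (Sum.inr 1) (Sum.inl s) (Sum.inr 0)).and
    ((Dfn.reg _ (Sum.inr 1) (Reg.over _)).and
    ((Dfn.cat _ (Sum.inr 2) (Sum.inr 1) (Sum.inr 3)).and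
    ((Dfn.reg _ (Sum.inr 2) (Reg.last c)).and
    (Dfn.cat _ (Sum.inl y) (Sum.inr 3) (Sum.inr 4))))))

lemma Dfn.before [Finite A] (c : A) (w s y : Y) :
    Dfn w (fun σ : Y → List A => Before c (σ w) (σ s) (σ y)) :=
  Dfn.ex (Fin 5) ((Dfn.cat (Sum.inl w) (Sum.inr 1) (Sum.inr 0) (Sum.inl s)).and
    ((Dfn.reg _ (Sum.inr 1) (Reg.over _)).and
    ((Dfn.cat _ (Sum.inr 2) (Sum.inr 3) (Sum.inr 1)).and
    ((Dfn.reg _ (Sum.inr 2) (Reg.head _)).and
    (Dfn.cat _ (Sum.inl y) (Sum.inr 3) (Sum.inr 4))))))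

lemma After.sound {c : A} {u s y : List A} (h : After c u s y) (hs : s ≠ []) : y ≠ [] := by
  obtain ⟨τ, -, h1, h2, h3, h4, h5⟩ := h
  rintro rfl
  have h6 : τ 3 = [] := (List.append_eq_nil_iff.1 h5.symm).1
  rw [h6, List.append_nil] at h3
  rw [h3] at h4
  rcases h4 with h4 | ⟨z, h4⟩
  · rw [h1] at h4
    exact hs (List.append_eq_nil_iff.1 h4).1
  · exact h2 c (by rw [h4]; simp) rfl

lemma Before.sound {c : A} {u s y : List A} (h : Before c u s y) (hs : s ≠ []) : y ≠ [] := by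
  obtain ⟨τ, -, h1, h2, h3, h4, h5⟩ := h
  rintro rfl
  have h6 : τ 3 = [] := (List.append_eq_nil_iff.1 h5.symm).1
  rw [h6, List.nil_append] at h3
  rw [h3] at h4
  rcases h7 : τ 1 with _ | ⟨b, z⟩
  · rw [h1] at h7
    exact hs (List.append_eq_nil_iff.1 h7).2
  · rw [h7] at h2 h4
    exact h2 b List.mem_cons_self (h4 b rfl)

lemma After.nil (c : A) {u y : List A} (hy : y <:+: u) : After c u [] y := by
  refine ⟨![[], [], [], [], y], fun z => ?_, rfl, by simp, rfl, Or.inl rfl, rfl⟩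
  fin_cases z <;> simp [hy]

lemma Before.nil (c : A) {u y : List A} (hy : y <:+: u) : Before c u [] y := by
  refine ⟨![[], [], [], [], y], fun z => ?_, rfl, by simp, rfl, by simp, rfl⟩
  fin_cases z <;> simp [hy]

lemma After.complete {a c : A} (hac : a ≠ c) {u m y : List A} (hm : a :: m ++ [c] <:+: u)
    (hy : c :: y <:+: u) : After c u [a] (c :: y) := by
  obtain ⟨m', t, h1, h2⟩ := List.eq_append_cons_of_mem (show c ∈ m ++ [c] by simp)
  have h3 : a :: m' ++ [c] <:+: u := by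
    refine List.IsInfix.trans ⟨[], t, ?_⟩ hm
    simp [h1]
  refine ⟨![m', [a] ++ m', [a] ++ m' ++ [c], [c], y], fun z => ?_, rfl, ?_, rfl,
    Or.inr ⟨_, rfl⟩, rfl⟩
  · fin_cases z
    · exact List.IsInfix.trans ⟨[a], [c], by simp⟩ h3
    · exact List.IsInfix.trans ⟨[], [c], by simp⟩ h3
    · exact h3
    · exact List.IsInfix.trans ⟨[], y, by simp⟩ hy
    · exact List.IsInfix.trans ⟨[c], [], by simp⟩ hy
  · intro b hb
    rcases List.mem_cons.1 hb with rfl | hb'
    · exact hac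
    · rintro rfl; exact h2 hb'

lemma Before.complete {a c : A} (hac : a ≠ c) {u m y : List A} (hm : c :: m ++ [a] <:+: u)
    (hy : c :: y <:+: u) : Before c u [a] (c :: y) := by
  obtain ⟨m', t, h1, h2⟩ := List.eq_append_cons_of_mem (show c ∈ (c :: m).reverse by simp)
  have h4 : c :: m = t.reverse ++ c :: m'.reverse := by
    rw [← List.reverse_reverse (c :: m), h1]; simp
  have h3 : c :: m'.reverse ++ [a] <:+: u := by
    refine List.IsInfix.trans ⟨t.reverse, [], ?_⟩ hm
    rw [h4]; simp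
  refine ⟨![m'.reverse, m'.reverse ++ [a], [c] ++ (m'.reverse ++ [a]), [c], y], fun z => ?_, rfl,
    ?_, rfl, by simp, rfl⟩
  · fin_cases z
    · exact List.IsInfix.trans ⟨[c], [a], by simp⟩ h3
    · exact List.IsInfix.trans ⟨[c], [], by simp⟩ h3
    · exact h3
    · exact List.IsInfix.trans ⟨[], y, by simp⟩ hy
    · exact List.IsInfix.trans ⟨[c], [], by simp⟩ hy
  · intro b hb
    rcases List.mem_append.1 hb with hb' | hb'
    · rintro rfl; exact h2 (List.mem_reverse.1 hb')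
    · rw [List.mem_singleton.1 hb']; exact hac

/-- If the token `t` is nonempty then so is `y`. -/
def NE [Finite A] (u t y : List A) : Prop :=
  ∃ s : Option (A × Bool) ⊕ Unit → List A, (∀ z, s z <:+: u) ∧
    t = (((enum (Option (A × Bool))).map Sum.inl).map s).flatten ∧
    y = s (Sum.inl none) ++ s (Sum.inr ()) ∧
    ∀ c, After c u (s (Sum.inl (some (c, true)))) y ∧ Before c u (s (Sum.inl (some (c, false)))) y

lemma Dfn.ne [Finite A] (w t y : Y) : Dfn w (fun σ : Y → List A => NE (σ w) (σ t) (σ y)) := by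
  refine (Dfn.ex (Option (A × Bool) ⊕ Unit)
    ((Dfn.flat (Sum.inl w) (Sum.inl t)
      (((enum (Option (A × Bool))).map Sum.inl).map Sum.inr)).and
    ((Dfn.cat _ (Sum.inl y) (Sum.inr (Sum.inl none)) (Sum.inr (Sum.inr ()))).and
    (Dfn.all (fun c => (Dfn.after c _ (Sum.inr (Sum.inl (some (c, true)))) (Sum.inl y)).and
      (Dfn.before c _ (Sum.inr (Sum.inl (some (c, false)))) (Sum.inl y))))))).congr
    (fun σ _ => ?_)
  simp only [NE, Sum.elim_inl, Sum.elim_inr, List.map_map, Function.comp_def]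

lemma NE.sound [Finite A] {u t y : List A} (h : NE u t y) (ht : t ≠ []) : y ≠ [] := by
  obtain ⟨s, -, h1, h2, h3⟩ := h
  by_contra hy
  refine ht (h1.trans ?_)
  simp only [List.flatten_eq_nil_iff, List.forall_mem_map]
  rintro (_ | ⟨c, _ | _⟩) -
  · exact (List.append_eq_nil_iff.1 (h2.symm.trans hy)).1
  · by_contra h; exact (h3 c).2.sound h hy
  · by_contra h; exact (h3 c).1.sound h hy

lemma NE.nil [Finite A] (u : List A) : NE u [] [] :=
  ⟨fun _ => [], fun _ => List.nil_infix, by simp, rfl,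
    fun c => ⟨After.nil c List.nil_infix, Before.nil c List.nil_infix⟩⟩

lemma NE.complete [Finite A] {u y : List A} {a : A} (ha : a ∈ u) (hy : y <:+: u) (hy0 : y ≠ []) :
    NE u [a] y := by
  classical
  rcases y with _ | ⟨c, y⟩
  · exact absurd rfl hy0
  have hau : [a] <:+: u := by
    obtain ⟨s, t, rfl⟩ := List.append_of_mem ha
    exact ⟨s, t, by simp⟩
  have key : ∀ (i₀ : Option (A × Bool)) (r : List A), r <:+: u →
      c :: y = (if none = i₀ then [a] else []) ++ r →
      (∀ d, After d u (if some (d, true) = i₀ then [a] else []) (c :: y)) →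
      (∀ d, Before d u (if some (d, false) = i₀ then [a] else []) (c :: y)) →
      NE u [a] (c :: y) := by
    intro i₀ r h1 h2 h3 h4
    refine ⟨Sum.elim (fun i => if i = i₀ then [a] else []) (fun _ => r), ?_, ?_, h2,
      fun d => ⟨h3 d, h4 d⟩⟩
    · rintro (i | i)
      · simp only [Sum.elim_inl]
        split_ifs
        exacts [hau, List.nil_infix]
      · exact h1
    · rw [List.map_map, flatten_single (enum_nodup _) (mem_enum i₀) (fun i hi => by simp [hi])]
      simp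
  by_cases hac : a = c
  · subst hac
    exact key none y ((List.suffix_cons a y).isInfix.trans hy) (by simp)
      (fun d => by simpa using After.nil d hy) (fun d => by simpa using Before.nil d hy)
  rcases exists_before ha (hy.subset List.mem_cons_self) hac with ⟨m, hm⟩ | ⟨m, hm⟩
  · refine key (some (c, true)) _ hy (by simp) (fun d => ?_)
      (fun d => by simpa using Before.nil d hy)
    by_cases hd : d = c
    · subst hd; simpa using After.complete hac hm hy
    · simpa [hd] using After.nil d hy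
  · refine key (some (c, false)) _ hy (by simp) (fun d => by simpa using After.nil d hy)
      (fun d => ?_)
    by_cases hd : d = c
    · subst hd; simpa using Before.complete hac hm hy
    · simpa [hd] using Before.nil d hy

/-- The constants of a query. -/
def CQ.consts (φ : CQ A V) : List A := φ.atoms.flatMap (fun e => e.2.filterMap Sum.getLeft?)

lemma CQ.mem_consts {φ : CQ A V} {a : A} : a ∈ φ.consts ↔ ∃ e ∈ φ.atoms, Sum.inl a ∈ e.2 := by
  simp [CQ.consts]

/-- The optional version of a query. -/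
def Opt [Finite A] (φ : CQ A V) (w₀ : V) (u x : List A) : Prop :=
  ∃ ρ : V ⊕ (A ⊕ Unit) → List A, (∀ z, ρ z <:+: u) ∧ ρ (Sum.inl w₀) = x ∧
    Tok u x (ρ (Sum.inr (Sum.inr ()))) ∧
    (∀ e ∈ φ.atoms, ρ (Sum.inl e.1) =
      (e.2.map (fun t => ρ (Sum.elim (fun a => Sum.inr (Sum.inl a)) Sum.inl t))).flatten) ∧
    (∀ a ∈ φ.consts, ρ (Sum.inr (Sum.inl a)) ∈ ({[]} : Set (List A)) ∪ {[a]} ∧
      NE u (ρ (Sum.inr (Sum.inr ()))) (ρ (Sum.inr (Sum.inl a)))) ∧
    ∀ c ∈ φ.cons, ρ (Sum.inl c.1) ∈ ({[]} : Set (List A)) ∪ {y | y ∈ c.2.matches'} ∧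
      ([] ∉ c.2.matches' → NE u (ρ (Sum.inr (Sum.inr ()))) (ρ (Sum.inl c.1)))

lemma Dfn.opt [Finite A] (φ : CQ A V) (w₀ : V) (w x : Y) :
    Dfn w (fun σ : Y → List A => Opt φ w₀ (σ w) (σ x)) := by
  refine (Dfn.ex (V ⊕ (A ⊕ Unit))
    ((Dfn.eq (Sum.inl w) (Sum.inr (Sum.inl w₀)) (Sum.inl x)).and
    ((Dfn.tok _ (Sum.inl x) (Sum.inr (Sum.inr (Sum.inr ())))).and
    ((Dfn.all_list φ.atoms (fun e _ => Dfn.flat _ (Sum.inr (Sum.inl e.1))
      (e.2.map (fun t => Sum.inr (Sum.elim (fun a => Sum.inr (Sum.inl a)) Sum.inl t))))).and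
    ((Dfn.all_list φ.consts (fun a _ =>
      (Dfn.reg _ (Sum.inr (Sum.inr (Sum.inl a))) (Reg.eps.union (Reg.char a))).and
      (Dfn.ne _ (Sum.inr (Sum.inr (Sum.inr ()))) (Sum.inr (Sum.inr (Sum.inl a)))))).and
    (Dfn.all_list φ.cons (fun c _ =>
      (Dfn.reg _ (Sum.inr (Sum.inl c.1))
        (Reg.eps.union (S' := {y | y ∈ c.2.matches'}) ⟨c.2, fun _ => Iff.rfl⟩)).and
      (Dfn.imp ([] ∉ c.2.matches')
        (Dfn.ne _ (Sum.inr (Sum.inr (Sum.inr ()))) (Sum.inr (Sum.inl c.1))))))))))).congr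
    (fun σ _ => ?_)
  simp only [Opt, Sum.elim_inl, Sum.elim_inr, List.map_map, Function.comp_def]

lemma subst_eq_flatten (ρ : V ⊕ (A ⊕ Unit) → List A) (α : List (A ⊕ V))
    (h : ∀ a, Sum.inl a ∈ α → ρ (Sum.inr (Sum.inl a)) = [a]) :
    (α.map (fun t => ρ (Sum.elim (fun a => Sum.inr (Sum.inl a)) Sum.inl t))).flatten =
      subst (fun x => ρ (Sum.inl x)) α := by
  induction α with
  | nil => rfl
  | cons t α ih =>
    have ih' := ih (fun a ha => h a (List.mem_cons_of_mem _ ha))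
    cases t with
    | inl a => simp [ih', h a List.mem_cons_self]
    | inr x => simp [ih']

lemma Opt.sound [Finite A] {φ : CQ A V} {w₀ : V} {u : List A} (h : Opt φ w₀ u u) (hu : NU u) :
    u ∈ φ.lang w₀ := by
  obtain ⟨ρ, h1, h2, h3, h4, h5, h6⟩ := h
  have ht := h3.sound hu
  refine ⟨fun x => ρ (Sum.inl x), fun x => by simpa only [h2] using h1 _,
    fun e he => ?_, fun c hc => ?_, h2⟩
  · rw [← subst_eq_flatten ρ e.2 (fun a ha => ?_)]
    · exact h4 e he
    · have := h5 a (CQ.mem_consts.2 ⟨e, he, ha⟩)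
      exact this.1.resolve_left (this.2.sound ht)
  · rcases (h6 c hc).1 with h | h
    · by_cases h0 : [] ∈ c.2.matches'
      · have h' : ρ (Sum.inl c.1) = [] := h
        simpa only [h'] using h0
      · exact absurd h (((h6 c hc).2 h0).sound ht)
    · exact h

lemma Opt.nil [Finite A] (φ : CQ A V) (w₀ : V) (u : List A) : Opt φ w₀ u [] :=
  ⟨fun _ => [], fun _ => List.nil_infix, rfl, Tok.nil u, fun e _ => by simp,
    fun _ _ => ⟨Or.inl rfl, NE.nil u⟩, fun _ _ => ⟨Or.inl rfl, fun _ => NE.nil u⟩⟩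

lemma Opt.complete [Finite A] {φ : CQ A V} {w₀ : V} {u : List A} (h : u ∈ φ.lang w₀)
    (hu : NU u) : Opt φ w₀ u u := by
  classical
  obtain ⟨σ, h1, h2, h3, rfl⟩ := h
  obtain ⟨a₀, ha₀, ht⟩ := Tok.complete hu
  have hin : ∀ a ∈ σ w₀, [a] <:+: σ w₀ := by
    intro a ha
    obtain ⟨s, t, h⟩ := List.append_of_mem ha
    exact ⟨s, t, by simp [h]⟩
  have hc : ∀ a ∈ φ.consts, [a] <:+: σ w₀ := by
    intro a ha
    obtain ⟨e, he, ha⟩ := CQ.mem_consts.1 ha
    refine hin a ((h1 e.1).subset ?_)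
    rw [h2 e he]
    exact List.mem_flatMap.2 ⟨_, ha, by simp⟩
  refine ⟨Sum.elim σ (Sum.elim (fun a => if a ∈ φ.consts then [a] else []) (fun _ => [a₀])),
    ?_, rfl, ht, fun e he => ?_, fun a ha => ?_, fun c hc => ⟨Or.inr (h3 c hc), fun h0 => ?_⟩⟩
  · rintro (x | a | _)
    · exact h1 x
    · simp only [Sum.elim_inr, Sum.elim_inl]
      split_ifs with h
      exacts [hc a h, List.nil_infix]
    · exact hin a₀ ha₀
  · rw [subst_eq_flatten _ e.2 (fun a ha => by simp [CQ.mem_consts.2 ⟨e, he, ha⟩])]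
    exact h2 e he
  · simp only [Sum.elim_inr, Sum.elim_inl, if_pos ha]
    exact ⟨Or.inr rfl, NE.complete ha₀ (hc a ha) (by simp)⟩
  · refine NE.complete ha₀ (h1 c.1) (fun h => h0 ?_)
    have h' : σ c.1 = [] := h
    exact h' ▸ h3 c hc

lemma nu_or_unary [Nonempty A] (u : List A) : NU u ∨ ∃ a, ∀ b ∈ u, b = a := by
  by_cases h : NU u
  · exact Or.inl h
  · right
    cases u with
    | nil => exact ⟨Classical.arbitrary A, by simp⟩
    | cons a u =>
      exact ⟨a, fun b hb => by_contra (fun hba => h ⟨b, hb, a, List.mem_cons_self, hba⟩)⟩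

lemma not_nu_of_all {a : A} {u : List A} (h : ∀ b ∈ u, b = a) : ¬ NU u := by
  rintro ⟨b, hb, c, hc, hbc⟩
  exact hbc ((h b hb).trans (h c hc).symm)

lemma split_unary {u v z : List A} (hu : NU u) (h1 : u = v ++ z) (h2 : u = z ++ v) {a : A}
    (hz : ∀ b ∈ z, b = a) : z = [] := by
  by_cases hv : ∀ b ∈ v, b = a
  · refine absurd hu (not_nu_of_all (a := a) (fun b hb => ?_))
    rw [h1] at hb
    exact (List.mem_append.1 hb).elim (hv b) (hz b)
  · have e1 := tw_append_of_not hv z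
    have e2 := tw_append_of_all hz v
    rw [← h1] at e1
    rw [← h2, e1] at e2
    have := congrArg List.length e2
    simp only [List.length_append] at this
    exact List.length_eq_zero_iff.1 (by omega)

lemma split_mode {u x y : List A} (hu : NU u) (h1 : u = x ++ y) (h2 : u = y ++ x)
    (h3 : ∀ a, tw a u = tw a x ++ tw a y) : x = [] ∨ y = [] := by
  rcases x with _ | ⟨a, x⟩
  · exact Or.inl rfl
  rcases y with _ | ⟨b, y⟩
  · exact Or.inr rfl
  obtain rfl : a = b := by
    have := h1.symm.trans h2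
    simp only [List.cons_append, List.cons.injEq] at this
    exact this.1
  by_cases hx : ∀ b ∈ a :: x, b = a
  · exact Or.inl (split_unary hu h2 h1 hx)
  · have e1 := tw_append_of_not hx (a :: y)
    rw [← h1, h3 a, tw_cons_self a y] at e1
    have := congrArg List.length e1
    simp at this

theorem union_mem [Finite A] [Nonempty A] [Infinite X] (w : X) (φ ψ : CQ A X) :
    φ.lang w ∪ ψ.lang w ∈ cqClass A w := by
  let L := φ.lang w ∪ ψ.lang w
  have hR : Reg ({y : List A | NU y} ∪ ⋃ a ∈ (Set.univ : Set A),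
      {y | ∃ n ∈ {n | List.replicate n a ∈ φ.lang w} ∪ {n | List.replicate n a ∈ ψ.lang w},
        y = List.replicate n a}) :=
    Reg.nu.union (Reg.biUnion Set.finite_univ (fun a _ => Reg.semilinear a
      ((semilinear_lang a w φ).union (semilinear_lang a w ψ))))
  have hR' : Reg {y : List A | NU y ∨ (y ∈ L ∧ ∃ a, ∀ b ∈ y, b = a)} := by
    refine hR.congr (fun y => or_congr Iff.rfl ?_)
    simp only [Set.mem_iUnion, Set.mem_univ, Set.mem_ofPred_eq, Set.mem_union, exists_const]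
    constructor
    · rintro ⟨h1, a, h2⟩
      have := List.eq_replicate_of_mem h2
      exact ⟨a, y.length, by rw [← this]; exact h1, this⟩
    · rintro ⟨a, n, h1, rfl⟩
      exact ⟨h1, a, fun b hb => List.eq_of_mem_replicate hb⟩
  refine Dfn.lang_mem w (((Dfn.reg () () hR').and (Dfn.ex (Fin 4)
    ((Dfn.cat (Sum.inl ()) (Sum.inl ()) (Sum.inr 0) (Sum.inr 3)).and
    ((Dfn.cat _ (Sum.inl ()) (Sum.inr 3) (Sum.inr 0)).and
    ((Dfn.reg _ (Sum.inr 3) Reg.unary).and
    ((Dfn.cat _ (Sum.inr 0) (Sum.inr 1) (Sum.inr 2)).and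
    ((Dfn.cat _ (Sum.inr 0) (Sum.inr 2) (Sum.inr 1)).and
    ((Dfn.all (fun a => Dfn.ex (Fin 3)
      ((Dfn.tw _ (Sum.inl (Sum.inr 0)) (Sum.inr 0) a).and
      ((Dfn.tw _ (Sum.inl (Sum.inr 1)) (Sum.inr 1) a).and
      ((Dfn.tw _ (Sum.inl (Sum.inr 2)) (Sum.inr 2) a).and
      (Dfn.cat _ (Sum.inr 0) (Sum.inr 1) (Sum.inr 2))))))).and
    ((Dfn.opt φ w _ (Sum.inr 1)).and (Dfn.opt ψ w _ (Sum.inr 2))))))))))).congr (fun σ _ => ?_))
  simp only [Sum.elim_inl, Sum.elim_inr, Set.mem_ofPred_eq]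
  generalize σ () = u
  have htw : ∀ a, tw a u <:+: u := fun a => (tw_prefix a u).isInfix
  constructor
  · intro hu
    rcases nu_or_unary u with h | h
    · refine ⟨Or.inl h, ?_⟩
      rcases hu with hu | hu
      · refine ⟨![u, u, [], []], fun z => by fin_cases z <;> simp, by simp, by simp,
          ⟨Classical.arbitrary A, by simp⟩, by simp, by simp, fun a => ⟨![tw a u, tw a u, []],
            fun z => by fin_cases z <;> simp [htw], rfl, rfl, rfl, by simp⟩,
          Opt.complete hu h, Opt.nil _ _ _⟩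
      · refine ⟨![u, [], u, []], fun z => by fin_cases z <;> simp, by simp, by simp,
          ⟨Classical.arbitrary A, by simp⟩, by simp, by simp, fun a => ⟨![tw a u, [], tw a u],
            fun z => by fin_cases z <;> simp [htw], rfl, rfl, rfl, by simp⟩,
          Opt.nil _ _ _, Opt.complete hu h⟩
    · exact ⟨Or.inr ⟨hu, h⟩, ![[], [], [], u], fun z => by fin_cases z <;> simp, by simp, by simp,
        h, by simp, by simp, fun a => ⟨fun _ => [], fun z => by simp, rfl, rfl, rfl, rfl⟩,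
        Opt.nil _ _ _, Opt.nil _ _ _⟩
  · rintro ⟨h | h, τ, -, h1, h2, ⟨a, h3⟩, h4, h5, h6, h7, h8⟩
    · have e3 := split_unary h h1 h2 h3
      rw [e3, List.append_nil] at h1
      rw [← h1] at h4 h5 h6
      have e4 : ∀ a, tw a u = tw a (τ 1) ++ tw a (τ 2) := by
        intro a
        obtain ⟨ρ, -, b1, b2, b3, b4⟩ := h6 a
        rw [← b1, ← b2, ← b3, b4]
      rcases split_mode h h4 h5 e4 with e5 | e5
      · rw [e5, List.nil_append] at h4
        exact Or.inr (Opt.sound (h4 ▸ h8) h)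
      · rw [e5, List.append_nil] at h4
        exact Or.inl (Opt.sound (h4 ▸ h7) h)
    · exact h.1

theorem classes_eq [Finite A] [Nonempty A] [Infinite X] (w : X) :
    cqClass A w = ucqClass A w := by
  ext L
  constructor
  · rintro ⟨φ, rfl⟩
    exact ⟨[φ], by simp⟩
  · rintro ⟨Φ, rfl⟩
    induction Φ with
    | nil =>
      refine ⟨⟨[], [(w, 0)]⟩, ?_⟩
      ext u
      simp [CQ.lang]
    | cons φ Φ ih =>
      obtain ⟨ψ, hψ⟩ := ih
      have := union_mem w φ ψ
      rw [← hψ] at this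
      simp only [List.mem_cons, exists_eq_or_imp]
      exact this

end Pool.Agent.Lib.MP_c07d1e_lc
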