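import Pool.Agent.Lib.MP_c07d1e_lc.Defs

namespace Pool.Agent.Lib.MP_c07d1e_lc

variable {A X : Type}

/-- The answers of an FC[REG]-CQ with universe variable `w` and head `hd` on the word `u`:
the tuples of values of the head variables under the safe satisfying substitutions that send
`w` to `u`. -/
def CQ.ans (w : X) (hd : List X) (φ : CQ A X) (u : List A) : Set (List (List A)) :=
  {t | ∃ σ : X → List A, (∀ x, σ x <:+: σ w) ∧ (∀ e ∈ φ.atoms, σ e.1 = subst σ e.2) ∧
    (∀ c ∈ φ.cons, σ c.1 ∈ c.2.matches') ∧ σ w = u ∧ hd.map σ = t}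

end Pool.Agent.Lib.MP_c07d1e_lc
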