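import Pool.Agent.Lib.MP_c07d1e_lc.Switch
import Pool.Agent.Lib.MP_c07d1e_lc.QueryDefs

namespace Pool.Agent.Lib.MP_c07d1e_lc

variable {A V W X Y : Type}

theorem Dfn.or [Finite A] [Finite Y] {w : Y} {R R' : (Y → List A) → Prop} (h : Dfn w R)
    (h' : Dfn w R') : Dfn w (fun σ => R σ ∨ R' σ) := by
  obtain ⟨Z, φ, h⟩ := h
  obtain ⟨Z', φ', h'⟩ := h'
  refine ((Dfn.imp (¬ (R (fun _ => []) ∨ R' (fun _ => []))) (Dfn.reg w w Reg.ne_nil)).and
    (Dfn.ex (Fin 4 ⊕ ((Y ⊕ Z) ⊕ (Y ⊕ Z')))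
      ((Dfn.cat (Sum.inl w) (Sum.inl w) (Sum.inr (Sum.inl 0)) (Sum.inr (Sum.inl 1))).and
      ((Dfn.reg _ (Sum.inr (Sum.inl 0)) Reg.short).and
      ((Dfn.sw _ (Sum.inr (Sum.inl 0)) (Sum.inr (Sum.inl 1))).and
      ((Dfn.cat _ (Sum.inr (Sum.inl 0)) (Sum.inr (Sum.inl 2)) (Sum.inr (Sum.inl 3))).and
      ((Dfn.all (fun y : Y =>
        (Dfn.cat _ (Sum.inl y) (Sum.inr (Sum.inr (Sum.inl (Sum.inl y))))
          (Sum.inr (Sum.inr (Sum.inr (Sum.inl y))))).and
        ((Dfn.sw _ (Sum.inr (Sum.inl 2)) (Sum.inr (Sum.inr (Sum.inl (Sum.inl y))))).and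
        (Dfn.sw _ (Sum.inr (Sum.inl 3)) (Sum.inr (Sum.inr (Sum.inr (Sum.inl y)))))))).and
      ((Dfn.optH φ _ (Sum.inr (Sum.inl 2)) (fun v => Sum.inr (Sum.inr (Sum.inl v)))).and
      (Dfn.optH φ' _ (Sum.inr (Sum.inl 3)) (fun v => Sum.inr (Sum.inr (Sum.inr v)))))))))))).congr
    (fun σ hσ => ?_)
  simp only [Sum.elim_inl, Sum.elim_inr, Set.mem_ofPred_eq]
  have hnil : σ w = [] → σ = fun _ => [] := fun hw =>
    funext (fun y => List.eq_nil_of_infix_nil (hw ▸ hσ y))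
  constructor
  · intro hR
    refine ⟨fun hn hw => hn (hnil hw ▸ hR), ?_⟩
    rcases hu : σ w with _ | ⟨a, v⟩
    · refine ⟨fun _ => [], fun _ => List.nil_infix, rfl, by simp, Sw.nil List.nil_infix, rfl,
        fun y => ⟨by rw [hnil hu]; rfl, Sw.nil List.nil_infix, Sw.nil List.nil_infix⟩,
        OptH.nil _ _ (fun _ => rfl), OptH.nil _ _ (fun _ => rfl)⟩
    · have ha : [a] <:+: a :: v := ⟨[], v, rfl⟩
      have hv : v <:+: a :: v := ⟨[a], [], by simp⟩
      have hσ' : ∀ y, σ y <:+: a :: v := fun y => hu ▸ hσ y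
      rcases hR with hR | hR
      · obtain ⟨τ, h1, h2⟩ := (h σ hσ).1 hR
        rw [hu] at h1
        have h3 : ∀ x, Sum.elim σ τ x <:+: a :: v := by
          rintro (x | x)
          exacts [hσ' x, h1 x]
        refine ⟨Sum.elim ![[a], v, [a], []] (Sum.elim (Sum.elim σ τ) (fun _ => [])), ?_, rfl,
          le_rfl, Sw.complete ha (by simp) hv, rfl, fun y => ⟨by simp,
            Sw.complete ha (by simp) (hσ' y), Sw.nil List.nil_infix⟩,
          OptH.complete h2 h3 List.mem_cons_self, OptH.nil _ _ (fun _ => rfl)⟩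
        rintro (i | x | x)
        · fin_cases i
          exacts [ha, hv, ha, List.nil_infix]
        · exact h3 x
        · exact List.nil_infix
      · obtain ⟨τ, h1, h2⟩ := (h' σ hσ).1 hR
        rw [hu] at h1
        have h3 : ∀ x, Sum.elim σ τ x <:+: a :: v := by
          rintro (x | x)
          exacts [hσ' x, h1 x]
        refine ⟨Sum.elim ![[a], v, [], [a]] (Sum.elim (fun _ => []) (Sum.elim σ τ)), ?_, rfl,
          le_rfl, Sw.complete ha (by simp) hv, rfl, fun y => ⟨by simp,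
            Sw.nil List.nil_infix, Sw.complete ha (by simp) (hσ' y)⟩,
          OptH.nil _ _ (fun _ => rfl), OptH.complete h2 h3 List.mem_cons_self⟩
        rintro (i | x | x)
        · fin_cases i
          exacts [ha, hv, List.nil_infix, ha]
        · exact List.nil_infix
        · exact h3 x
  · rintro ⟨h0, ρ, h1, h2, h3, h4, h5, h6, h7, h8⟩
    by_cases hw : σ w = []
    · rw [hnil hw]
      by_contra hn
      exact h0 hn hw
    have hz : ρ (Sum.inl 0) ≠ [] := fun hz => hw (by rw [h2, hz, h4.sound hz]; rfl)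
    rw [h5] at h3 hz
    by_cases e : ρ (Sum.inl 3) = []
    · rw [e, List.append_nil] at hz
      refine Or.inl ((h σ hσ).2 ⟨fun z => ρ (Sum.inr (Sum.inl (Sum.inr z))), fun z => h1 _, ?_⟩)
      convert h7.sound hz using 1
      funext x
      cases x with
      | inl y => simpa [(h6 y).2.2.sound e] using (h6 y).1
      | inr z => rfl
    · have e' : ρ (Sum.inl 2) = [] := by
        have := List.length_pos_iff.2 e
        rw [List.length_append] at h3
        exact List.length_eq_zero_iff.1 (by omega)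
      refine Or.inr ((h' σ hσ).2 ⟨fun z => ρ (Sum.inr (Sum.inr (Sum.inr z))), fun z => h1 _, ?_⟩)
      convert h8.sound e using 1
      funext x
      cases x with
      | inl y => simpa [(h6 y).2.1.sound e'] using (h6 y).1
      | inr z => rfl

lemma Dfn.any_list {ι : Type} [Finite A] [Finite Y] {w : Y} {R : ι → (Y → List A) → Prop}
    (l : List ι) (h : ∀ i, Dfn w (R i)) : Dfn w (fun σ => ∃ i ∈ l, R i σ) := by
  induction l with
  | nil => exact (Dfn.reg w w Reg.empty).congr (fun σ _ => by simp)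
  | cons i l ih => exact ((h i).or ih).congr (fun σ _ => by simp)

/-- The variables that occur in a query. -/
def CQ.vars (φ : CQ A V) : List V :=
  φ.atoms.flatMap (fun e => e.1 :: e.2.filterMap Sum.getRight?) ++ φ.cons.map Prod.fst

lemma CQ.holds_congr {φ : CQ A V} {σ τ : V → List A} (h : ∀ x ∈ φ.vars, τ x = σ x)
    (hσ : φ.Holds σ) : φ.Holds τ := by
  refine ⟨fun e he => ?_, fun c hc => ?_⟩
  · have hm : ∀ x, x = e.1 ∨ Sum.inr x ∈ e.2 → x ∈ φ.vars := by
      intro x hx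
      simp only [CQ.vars, List.mem_cons, List.mem_flatMap, List.mem_filterMap,
        List.mem_append, Sum.getRight?_eq_some_iff, exists_eq_right]
      exact Or.inl ⟨e, he, hx⟩
    rw [subst_congr (τ := σ) (fun x hx => h x (hm x (Or.inr hx))), h _ (hm _ (Or.inl rfl))]
    exact hσ.1 e he
  · rw [h _ (List.mem_append_right _ (List.mem_map.2 ⟨c, hc, rfl⟩))]
    exact hσ.2 c hc

lemma Dfn.realize [Infinite X] [Finite Y] {w : Y} {R : (Y → List A) → Prop} (h : Dfn w R)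
    {g : Y → X} (hg : Function.Injective g) :
    ∃ φ : CQ A X, ∀ s : Y → List A, (∀ y, s y <:+: s w) →
      (R s ↔ ∃ σ : X → List A, (∀ x, σ x <:+: s w) ∧ φ.Holds σ ∧ ∀ y, σ (g y) = s y) := by
  classical
  obtain ⟨Z, φ, h⟩ := h
  let T := {z : Z // Sum.inr z ∈ φ.vars}
  have hT : Finite T := ((List.finite_toSet φ.vars).preimage
    (f := (Sum.inr : Z → Y ⊕ Z)) Sum.inr_injective.injOn).to_subtype
  obtain ⟨e, he⟩ := exists_injective_nat T
  let j := (Set.finite_range g).infinite_compl.natEmbedding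
  let k : Y ⊕ T → X := Sum.elim g (fun t => (j (e t)).1)
  have hk : Function.Injective k :=
    hg.sumElim (Subtype.val_injective.comp (j.injective.comp he))
      (fun y t hyt => (j (e t)).2 ⟨y, hyt⟩)
  let r : Y ⊕ Z → X := Sum.elim g (fun z => if hz : Sum.inr z ∈ φ.vars then k (Sum.inr ⟨z, hz⟩)
    else g w)
  refine ⟨φ.ren r, fun s hs => (h s hs).trans ?_⟩
  simp only [CQ.holds_ren]
  constructor
  · rintro ⟨τ, h1, h2⟩
    let σ : X → List A := Function.extend k (Sum.elim s (fun t => τ t.1)) (fun _ => [])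
    have hσ : ∀ i, σ (k i) = Sum.elim s (fun t => τ t.1) i := fun i => hk.extend_apply _ _ _
    refine ⟨σ, fun x => ?_, CQ.holds_congr ?_ h2, fun y => hσ (Sum.inl y)⟩
    · by_cases hx : ∃ i, k i = x
      · obtain ⟨i, rfl⟩ := hx
        rw [hσ]
        cases i with
        | inl y => exact hs y
        | inr t => exact h1 _
      · simp [σ, Function.extend_apply' _ _ _ hx]
    · rintro (y | z) hx
      · exact hσ (Sum.inl y)
      · simp only [r, Sum.elim_inr, dif_pos hx, hσ]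
  · rintro ⟨σ, h1, h2, h3⟩
    refine ⟨fun z => σ (r (Sum.inr z)), fun z => h1 _, ?_⟩
    convert h2 using 1
    funext x
    cases x with
    | inl y => exact (h3 y).symm
    | inr z => rfl

lemma CQ.mem_ans {w : X} {hd : List X} {φ : CQ A X} {u : List A} {t : List (List A)} :
    t ∈ φ.ans w hd u ↔
      ∃ σ : X → List A, (∀ x, σ x <:+: σ w) ∧ φ.Holds σ ∧ σ w = u ∧ hd.map σ = t := by
  simp only [CQ.ans, CQ.Holds, Set.mem_ofPred_eq, and_assoc]

theorem ans_union [Finite A] [Infinite X] (w : X) (hd : List X) (Φ : List (CQ A X)) :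
    ∃ φ : CQ A X, ∀ u, φ.ans w hd u = {t | ∃ ψ ∈ Φ, t ∈ ψ.ans w hd u} := by
  let Y := {x : X // x ∈ w :: hd}
  have hY : Finite Y := (List.finite_toSet (w :: hd)).to_subtype
  let w' : Y := ⟨w, List.mem_cons_self⟩
  have hD : ∀ ψ : CQ A X, Dfn w' (fun s : Y → List A => ∃ τ : X → List A,
      (∀ x, τ x <:+: s w') ∧ ψ.Holds τ ∧ ∀ y : Y, τ y.1 = s y) := fun ψ =>
    (Dfn.ex X ((Dfn.holds (Sum.inl w') (ψ.ren Sum.inr)).and
      (Dfn.all (fun y : Y => Dfn.eq _ (Sum.inr y.1) (Sum.inl y))))).congr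
      (fun s _ => by simp only [CQ.holds_ren, Sum.elim_inl, Sum.elim_inr])
  obtain ⟨φ, hφ⟩ := (Dfn.any_list Φ hD).realize (g := Subtype.val) Subtype.val_injective
  refine ⟨φ, fun u => ?_⟩
  ext t
  simp only [CQ.mem_ans, Set.mem_ofPred_eq]
  constructor
  · rintro ⟨σ, h1, h2, rfl, rfl⟩
    obtain ⟨ψ, h3, τ, h4, h5, h6⟩ :=
      (hφ (fun y => σ y.1) (fun y => h1 _)).2 ⟨σ, h1, h2, fun _ => rfl⟩
    have h7 : τ w = σ w := h6 w'
    exact ⟨ψ, h3, τ, fun x => h7 ▸ h4 x, h5, h7,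
      List.map_congr_left (fun x hx => h6 ⟨x, List.mem_cons_of_mem _ hx⟩)⟩
  · rintro ⟨ψ, h3, τ, h4, h5, rfl, rfl⟩
    obtain ⟨σ, h1, h2, h6⟩ :=
      (hφ (fun y => τ y.1) (fun y => h4 _)).1 ⟨ψ, h3, τ, h4, h5, fun _ => rfl⟩
    have h7 : σ w = τ w := h6 w'
    exact ⟨σ, fun x => h7 ▸ h1 x, h2, h7,
      List.map_congr_left (fun x hx => h6 ⟨x, List.mem_cons_of_mem _ hx⟩)⟩

theorem classes_eq' [Finite A] [Infinite X] (w : X) : cqClass A w = ucqClass A w := by
  ext L
  constructor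
  · rintro ⟨φ, rfl⟩
    exact ⟨[φ], by simp⟩
  · rintro ⟨Φ, rfl⟩
    obtain ⟨φ, h⟩ := ans_union w [] Φ
    have e : ∀ (ψ : CQ A X) (u : List A), u ∈ ψ.lang w ↔ [] ∈ ψ.ans w [] u := fun ψ u => by
      simp only [CQ.mem_lang, CQ.mem_ans, List.map_nil, and_true]
    refine ⟨φ, ?_⟩
    ext u
    simp only [e, h, Set.mem_ofPred_eq]

end Pool.Agent.Lib.MP_c07d1e_lc
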