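import Pool.Agent.Lib.MP_c07d1e_lc.Gadgets

namespace Pool.Agent.Lib.MP_c07d1e_lc

variable {A V W X Y : Type}

lemma Reg.short [Finite A] : Reg {y : List A | y.length ≤ 1} := by
  refine (Reg.eps.union (Reg.letters (fun _ => True))).congr (fun y => ?_)
  rcases y with _ | ⟨a, _ | ⟨b, y⟩⟩ <;> simp

lemma even_split : ∀ (y : List A), Even y.length →
    ∃ L : List (List A), y = L.flatten ∧ ∀ z ∈ L, z.length = 2
  | [], _ => ⟨[], rfl, by simp⟩
  | [a], h => by simp at h
  | a :: b :: y, h => by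
    obtain ⟨L, h1, h2⟩ := even_split y (by
      simp only [List.length_cons] at h
      obtain ⟨k, hk⟩ := h
      exact ⟨k - 1, by omega⟩)
    refine ⟨[a, b] :: L, by simp [h1], fun z hz => ?_⟩
    rcases List.mem_cons.1 hz with rfl | hz
    exacts [rfl, h2 z hz]

lemma Reg.two [Finite A] : Reg {y : List A | y.length = 2} := by
  refine ((Reg.letters (fun _ => True)).mul (Reg.letters (fun _ => True))).congr (fun y => ?_)
  constructor
  · intro h
    obtain ⟨a, b, rfl⟩ := List.length_eq_two.1 h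
    exact ⟨[a], ⟨a, trivial, rfl⟩, [b], ⟨b, trivial, rfl⟩, rfl⟩
  · rintro ⟨_, ⟨a, -, rfl⟩, _, ⟨b, -, rfl⟩, rfl⟩
    rfl

lemma Reg.even [Finite A] : Reg {y : List A | Even y.length} := by
  refine Reg.two.star.congr (fun y => ⟨even_split y, ?_⟩)
  rintro ⟨L, rfl, h⟩
  induction L with
  | nil => simp
  | cons z L ih =>
    have h1 : z.length = 2 := h z List.mem_cons_self
    have h2 := ih (fun z hz => h z (List.mem_cons_of_mem _ hz))
    simp only [Set.mem_ofPred_eq, List.flatten_cons, List.length_append, h1] at h2 ⊢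
    exact even_two.add h2

lemma Reg.odd [Finite A] : Reg {y : List A | Odd y.length} := by
  refine ((Reg.letters (fun _ => True)).mul Reg.even).congr (fun y => ?_)
  constructor
  · intro h
    rcases y with _ | ⟨a, y⟩
    · simp at h
    · refine ⟨[a], ⟨a, trivial, rfl⟩, y, ?_, rfl⟩
      have h' : Odd (y.length + 1) := h
      exact Nat.not_odd_iff_even.1 (Nat.odd_add_one.1 h')
  · rintro ⟨_, ⟨a, -, rfl⟩, y, h, rfl⟩
    have h' : Even y.length := h
    exact h'.add_one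

lemma Reg.ne_nil [Finite A] : Reg {y : List A | y ≠ []} := by
  refine ((Reg.letters (fun _ => True)).mul Reg.univ).congr (fun y => ?_)
  constructor
  · intro h
    rcases y with _ | ⟨a, y⟩
    · exact absurd rfl h
    · exact ⟨[a], ⟨a, trivial, rfl⟩, y, trivial, rfl⟩
  · rintro ⟨_, ⟨a, -, rfl⟩, y, -, rfl⟩
    simp

lemma NE.nil' [Finite A] {u y : List A} (hy : y <:+: u) : NE u [] y := by
  refine ⟨Sum.elim (fun _ => []) (fun _ => y), ?_, ?_, rfl,
    fun c => ⟨After.nil c hy, Before.nil c hy⟩⟩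
  · rintro (i | i)
    exacts [List.nil_infix, hy]
  · symm
    simp

lemma NE.short [Finite A] {u t y : List A} (ht : t <:+: u) (ht1 : t.length ≤ 1) (hy : y <:+: u)
    (hy0 : y ≠ []) : NE u t y := by
  rcases t with _ | ⟨a, _ | ⟨b, t⟩⟩
  · exact NE.nil' hy
  · exact NE.complete (ht.subset List.mem_cons_self) hy hy0
  · simp at ht1

/-- If `s` is nonempty then so is `z`. -/
def Sw [Finite A] (u z s : List A) : Prop :=
  ∃ τ : Fin 4 → List A, (∀ i, τ i <:+: u) ∧ s = τ 0 ++ τ 1 ∧ τ 0 = τ 2 ++ τ 3 ∧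
    τ 2 ∈ {y : List A | Even y.length} ∧ τ 0 ∈ ({[]} : Set (List A)) ∪ {y | Odd y.length} ∧
    NE u (τ 3) z ∧ NE u (τ 1) z

lemma Dfn.sw [Finite A] (w z s : Y) : Dfn w (fun σ : Y → List A => Sw (σ w) (σ z) (σ s)) :=
  Dfn.ex (Fin 4) ((Dfn.cat (Sum.inl w) (Sum.inl s) (Sum.inr 0) (Sum.inr 1)).and
    ((Dfn.cat _ (Sum.inr 0) (Sum.inr 2) (Sum.inr 3)).and
    ((Dfn.reg _ (Sum.inr 2) Reg.even).and
    ((Dfn.reg _ (Sum.inr 0) (Reg.eps.union Reg.odd)).and
    ((Dfn.ne _ (Sum.inr 3) (Sum.inl z)).and (Dfn.ne _ (Sum.inr 1) (Sum.inl z)))))))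

lemma Sw.sound [Finite A] {u z s : List A} (h : Sw u z s) (hz : z = []) : s = [] := by
  obtain ⟨τ, -, h1, h2, h3, h4, h5, h6⟩ := h
  have e3 : τ 3 = [] := by_contra (fun h => h5.sound h hz)
  have e1 : τ 1 = [] := by_contra (fun h => h6.sound h hz)
  rw [e3, List.append_nil] at h2
  rw [e1, List.append_nil] at h1
  rcases h4 with h4 | h4
  · exact h1.trans h4
  · rw [h2] at h4
    exact absurd h4 (Nat.not_odd_iff_even.2 h3)

lemma Sw.nil [Finite A] {u z : List A} (hz : z <:+: u) : Sw u z [] :=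
  ⟨fun _ => [], fun _ => List.nil_infix, rfl, rfl, by simp, Or.inl rfl, NE.nil' hz, NE.nil' hz⟩

lemma odd_split {p : List A} (hp : Odd p.length) :
    ∃ p' c : List A, p = p' ++ c ∧ Even p'.length ∧ c.length ≤ 1 := by
  rcases List.eq_nil_or_concat p with rfl | ⟨p', a, rfl⟩
  · simp at hp
  · refine ⟨p', [a], by simp, ?_, by simp⟩
    have h' : Odd (p'.length + 1) := by simpa using hp
    exact Nat.not_odd_iff_even.1 (Nat.odd_add_one.1 h')

lemma Sw.complete [Finite A] {u z s : List A} (hz : z <:+: u) (hz0 : z ≠ []) (hs : s <:+: u) :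
    Sw u z s := by
  have key : ∀ p q : List A, s = p ++ q → q.length ≤ 1 → Odd p.length → Sw u z s := by
    intro p q h1 h2 h3
    obtain ⟨p', c, h4, h5, h6⟩ := odd_split h3
    have hp : p <:+: u := (List.IsPrefix.isInfix ⟨q, h1.symm⟩).trans hs
    have hq : q <:+: u := (List.IsSuffix.isInfix ⟨p, h1.symm⟩).trans hs
    have hc : c <:+: u := (List.IsSuffix.isInfix ⟨p', h4.symm⟩).trans hp
    refine ⟨![p, q, p', c], fun i => ?_, h1, h4, h5, Or.inr h3, NE.short hc h6 hz hz0,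
      NE.short hq h2 hz hz0⟩
    fin_cases i
    exacts [hp, hq, (List.IsPrefix.isInfix ⟨c, h4.symm⟩).trans hp, hc]
  rcases Nat.even_or_odd s.length with h | h
  · rcases List.eq_nil_or_concat s with rfl | ⟨p, a, rfl⟩
    · exact Sw.nil hz
    · refine key p [a] (by simp) (by simp) ?_
      have h' : Even (p.length + 1) := by simpa using h
      exact Nat.not_even_iff_odd.1 (Nat.even_add_one.1 h')
  · exact key s [] (by simp) (by simp) h

/-- The query `φ` is switched on by a nonempty token `t`. -/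
def OptH [Finite A] (φ : CQ A V) (u t : List A) (σ : V → List A) : Prop :=
  ∃ c : A → List A, (∀ a, c a <:+: u) ∧
    (∀ e ∈ φ.atoms, σ e.1 = (e.2.map (Sum.elim c σ)).flatten) ∧
    (∀ a ∈ φ.consts, c a ∈ ({[]} : Set (List A)) ∪ {[a]} ∧ NE u t (c a)) ∧
    ∀ k ∈ φ.cons, σ k.1 ∈ ({[]} : Set (List A)) ∪ {y | y ∈ k.2.matches'} ∧
      ([] ∉ k.2.matches' → NE u t (σ k.1))

lemma Dfn.optH [Finite A] (φ : CQ A V) (w t : Y) (f : V → Y) :
    Dfn w (fun σ : Y → List A => OptH φ (σ w) (σ t) (fun v => σ (f v))) := by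
  refine (Dfn.ex A
    ((Dfn.all_list φ.atoms (fun e _ => Dfn.flat (Sum.inl w) (Sum.inl (f e.1))
      (e.2.map (Sum.elim Sum.inr (fun v => Sum.inl (f v)))))).and
    ((Dfn.all_list φ.consts (fun a _ =>
      (Dfn.reg _ (Sum.inr a) (Reg.eps.union (Reg.char a))).and
      (Dfn.ne _ (Sum.inl t) (Sum.inr a)))).and
    (Dfn.all_list φ.cons (fun k _ =>
      (Dfn.reg _ (Sum.inl (f k.1))
        (Reg.eps.union (S' := {y | y ∈ k.2.matches'}) ⟨k.2, fun _ => Iff.rfl⟩)).and
      (Dfn.imp ([] ∉ k.2.matches') (Dfn.ne _ (Sum.inl t) (Sum.inl (f k.1))))))))).congr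
    (fun σ _ => ?_)
  have e : ∀ c : A → List A, (fun x : A ⊕ V => Sum.elim σ c (Sum.elim Sum.inr
      (fun v => Sum.inl (f v)) x)) = Sum.elim c (fun v => σ (f v)) := by
    intro c; funext x; cases x <;> rfl
  simp only [OptH, Sum.elim_inl, Sum.elim_inr, List.map_map, Function.comp_def, e]

lemma subst_eq_flatten' (c : A → List A) (σ : V → List A) (α : List (A ⊕ V))
    (h : ∀ a, Sum.inl a ∈ α → c a = [a]) : (α.map (Sum.elim c σ)).flatten = subst σ α := by
  induction α with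
  | nil => rfl
  | cons t α ih =>
    have ih' := ih (fun a ha => h a (List.mem_cons_of_mem _ ha))
    cases t with
    | inl a => simp [ih', h a List.mem_cons_self]
    | inr x => simp [ih']

lemma OptH.sound [Finite A] {φ : CQ A V} {u t : List A} {σ : V → List A} (h : OptH φ u t σ)
    (ht : t ≠ []) : φ.Holds σ := by
  obtain ⟨c, -, h4, h5, h6⟩ := h
  refine ⟨fun e he => ?_, fun k hk => ?_⟩
  · rw [← subst_eq_flatten' c σ e.2 (fun a ha => ?_)]
    · exact h4 e he
    · have := h5 a (CQ.mem_consts.2 ⟨e, he, ha⟩)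
      exact this.1.resolve_left (this.2.sound ht)
  · rcases (h6 k hk).1 with h | h
    · by_cases h0 : [] ∈ k.2.matches'
      · have h' : σ k.1 = [] := h
        simpa only [h'] using h0
      · exact absurd h (((h6 k hk).2 h0).sound ht)
    · exact h

lemma OptH.nil [Finite A] (φ : CQ A V) (u : List A) {σ : V → List A} (hσ : ∀ v, σ v = []) :
    OptH φ u [] σ := by
  obtain rfl : σ = fun _ => [] := funext hσ
  refine ⟨fun _ => [], fun _ => List.nil_infix, fun e _ => ?_,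
    fun _ _ => ⟨Or.inl rfl, NE.nil u⟩, fun _ _ => ⟨Or.inl rfl, fun _ => NE.nil u⟩⟩
  symm
  simp only [List.flatten_eq_nil_iff, List.forall_mem_map]
  rintro (a | v) - <;> rfl

lemma OptH.complete [Finite A] {φ : CQ A V} {u : List A} {σ : V → List A} (h : φ.Holds σ)
    (h1 : ∀ v, σ v <:+: u) {a₀ : A} (ha₀ : a₀ ∈ u) : OptH φ u [a₀] σ := by
  classical
  obtain ⟨h2, h3⟩ := h
  have hc : ∀ a ∈ φ.consts, [a] <:+: u := by
    intro a ha
    obtain ⟨e, he, ha⟩ := CQ.mem_consts.1 ha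
    have h4 : a ∈ u := (h1 e.1).subset (by
      rw [h2 e he]
      exact List.mem_flatMap.2 ⟨_, ha, by simp⟩)
    obtain ⟨s, t, h⟩ := List.append_of_mem h4
    exact ⟨s, t, by simp [h]⟩
  refine ⟨fun a => if a ∈ φ.consts then [a] else [], fun a => ?_, fun e he => ?_, fun a ha => ?_,
    fun k hk => ⟨Or.inr (h3 k hk), fun h0 => ?_⟩⟩
  · simp only
    split_ifs with h
    exacts [hc a h, List.nil_infix]
  · rw [subst_eq_flatten' _ _ e.2 (fun a ha => by simp [CQ.mem_consts.2 ⟨e, he, ha⟩])]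
    exact h2 e he
  · simp only [if_pos ha]
    exact ⟨Or.inr rfl, NE.complete ha₀ (hc a ha) (by simp)⟩
  · exact NE.complete ha₀ (h1 k.1) (fun h => h0 (h ▸ h3 k hk))

end Pool.Agent.Lib.MP_c07d1e_lc
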